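import Mathlib

set_option autoImplicit false

namespace Pool.Agent.MP_d17781_co

/-- The tournament `C3[C3]` on nine points: `outN u r` is the `r`-th out-neighbour of `u`. -/
def outN : Fin 9 → Fin 4 → Fin 9 :=
  ![![1, 3, 4, 5], ![2, 4, 5, 3], ![0, 5, 3, 4],
    ![4, 6, 7, 8], ![5, 7, 8, 6], ![3, 8, 6, 7],
    ![7, 0, 1, 2], ![8, 1, 2, 0], ![6, 2, 0, 1]]

/-- `inN v r` is the point whose `r`-th out-neighbour is `v`. -/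
def inN : Fin 9 → Fin 4 → Fin 9 :=
  ![![2, 6, 8, 7], ![0, 7, 6, 8], ![1, 8, 7, 6],
    ![5, 0, 2, 1], ![3, 1, 0, 2], ![4, 2, 1, 0],
    ![8, 3, 5, 4], ![6, 4, 3, 5], ![7, 5, 4, 3]]

/-- The position of `v` in the out-list of `u` (zero when it is absent). -/
def posN (u v : Fin 9) : ℕ :=
  if outN u 1 = v then 1 else if outN u 2 = v then 2 else if outN u 3 = v then 3 else 0

theorem outN_inN : ∀ (v : Fin 9) (r : Fin 4), outN (inN v r) r = v := by decide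

theorem inN_outN : ∀ (u : Fin 9) (r : Fin 4), inN (outN u r) r = u := by decide

theorem outN_ne : ∀ (u : Fin 9) (r : Fin 4), outN u r ≠ u := by decide

theorem posN_outN : ∀ (u : Fin 9) (r : Fin 4), posN u (outN u r) = r.val := by decide

theorem outN_outN_ne : ∀ (u : Fin 9) (r r' : Fin 4), outN (outN u r) r' ≠ u := by decide

/-- One class of three points with outside weight `E`. -/
theorem inner_class (a b c E : ℕ) (ha : a ≤ 21) (hb : b ≤ 21) (hc : c ≤ 21)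
    (h1 : 0 < a → 52 ≤ a + b + E) (h1' : a < 21 → a + b + E ≤ 53)
    (h2 : 0 < b → 52 ≤ b + c + E) (h2' : b < 21 → b + c + E ≤ 53)
    (h3 : 0 < c → 52 ≤ c + a + E) (h3' : c < 21 → c + a + E ≤ 53) :
    (a + b + c = 0 ∧ E ≤ 53) ∨ (a + b + c = 63 ∧ 10 ≤ E) ∨
    (156 ≤ 2 * (a + b + c) + 3 * E ∧ 2 * (a + b + c) + 3 * E ≤ 159) ∨
    (31 ≤ E ∧ 52 ≤ a + b + c + E ∧ a + b + c + E ≤ 53) ∨
    (E ≤ 32 ∧ 73 ≤ a + b + c + E ∧ a + b + c + E ≤ 74) := by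
  rcases Nat.eq_zero_or_pos a with a0 | a0 <;> rcases Nat.eq_zero_or_pos b with b0 | b0 <;>
  rcases Nat.eq_zero_or_pos c with c0 | c0 <;>
  rcases Nat.lt_or_eq_of_le ha with a1 | a1 <;> rcases Nat.lt_or_eq_of_le hb with b1 | b1 <;>
  rcases Nat.lt_or_eq_of_le hc with c1 | c1 <;> omega

theorem outer_mid (X Y Z : ℕ) (h1 : 156 ≤ 2 * X + 3 * Y ∧ 2 * X + 3 * Y ≤ 159)
    (h2 : 156 ≤ 2 * Y + 3 * Z ∧ 2 * Y + 3 * Z ≤ 159)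
    (h3 : 156 ≤ 2 * Z + 3 * X ∧ 2 * Z + 3 * X ≤ 159) : False := by
  have hX : X = 31 ∨ X = 32 := by omega
  have hY : Y = 31 ∨ Y = 32 := by omega
  have hZ : Z = 31 ∨ Z = 32 := by omega
  omega

theorem outer_class (X Y Z : ℕ) (hX : X ≤ 63) (hY : Y ≤ 63) (hZ : Z ≤ 63)
    (h1 : (X = 0 ∧ Y ≤ 53) ∨ (X = 63 ∧ 10 ≤ Y) ∨ (156 ≤ 2 * X + 3 * Y ∧ 2 * X + 3 * Y ≤ 159) ∨
      (31 ≤ Y ∧ 52 ≤ X + Y ∧ X + Y ≤ 53) ∨ (Y ≤ 32 ∧ 73 ≤ X + Y ∧ X + Y ≤ 74))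
    (h2 : (Y = 0 ∧ Z ≤ 53) ∨ (Y = 63 ∧ 10 ≤ Z) ∨ (156 ≤ 2 * Y + 3 * Z ∧ 2 * Y + 3 * Z ≤ 159) ∨
      (31 ≤ Z ∧ 52 ≤ Y + Z ∧ Y + Z ≤ 53) ∨ (Z ≤ 32 ∧ 73 ≤ Y + Z ∧ Y + Z ≤ 74))
    (h3 : (Z = 0 ∧ X ≤ 53) ∨ (Z = 63 ∧ 10 ≤ X) ∨ (156 ≤ 2 * Z + 3 * X ∧ 2 * Z + 3 * X ≤ 159) ∨
      (31 ≤ X ∧ 52 ≤ Z + X ∧ Z + X ≤ 53) ∨ (X ≤ 32 ∧ 73 ≤ Z + X ∧ Z + X ≤ 74)) :
    X + Y + Z = 0 ∨ X + Y + Z = 189 := by
  rcases h1 with h1 | h1 | h1 | h1 | h1 <;> rcases h2 with h2 | h2 | h2 | h2 | h2 <;>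
  rcases h3 with h3 | h3 | h3 | h3 | h3 <;>
  first | exact (outer_mid X Y Z h1 h2 h3).elim | omega

/-- The abstract system has only the two constant solutions. -/
theorem abstract_system (x : Fin 9 → ℕ) (hx : ∀ u, x u ≤ 21)
    (hr : ∀ u, 0 < x u →
      52 ≤ x u + x (outN u 0) + x (outN u 1) + x (outN u 2) + x (outN u 3))
    (hb : ∀ u, x u < 21 →
      x u + x (outN u 0) + x (outN u 1) + x (outN u 2) + x (outN u 3) ≤ 53) :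
    (∀ u, x u = 0) ∨ (∀ u, x u = 21) := by
  have r0 : 0 < x 0 → 52 ≤ x 0 + x 1 + x 3 + x 4 + x 5 := hr 0
  have r1 : 0 < x 1 → 52 ≤ x 1 + x 2 + x 4 + x 5 + x 3 := hr 1
  have r2 : 0 < x 2 → 52 ≤ x 2 + x 0 + x 5 + x 3 + x 4 := hr 2
  have r3 : 0 < x 3 → 52 ≤ x 3 + x 4 + x 6 + x 7 + x 8 := hr 3
  have r4 : 0 < x 4 → 52 ≤ x 4 + x 5 + x 7 + x 8 + x 6 := hr 4
  have r5 : 0 < x 5 → 52 ≤ x 5 + x 3 + x 8 + x 6 + x 7 := hr 5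
  have r6 : 0 < x 6 → 52 ≤ x 6 + x 7 + x 0 + x 1 + x 2 := hr 6
  have r7 : 0 < x 7 → 52 ≤ x 7 + x 8 + x 1 + x 2 + x 0 := hr 7
  have r8 : 0 < x 8 → 52 ≤ x 8 + x 6 + x 2 + x 0 + x 1 := hr 8
  have b0 : x 0 < 21 → x 0 + x 1 + x 3 + x 4 + x 5 ≤ 53 := hb 0
  have b1 : x 1 < 21 → x 1 + x 2 + x 4 + x 5 + x 3 ≤ 53 := hb 1
  have b2 : x 2 < 21 → x 2 + x 0 + x 5 + x 3 + x 4 ≤ 53 := hb 2
  have b3 : x 3 < 21 → x 3 + x 4 + x 6 + x 7 + x 8 ≤ 53 := hb 3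
  have b4 : x 4 < 21 → x 4 + x 5 + x 7 + x 8 + x 6 ≤ 53 := hb 4
  have b5 : x 5 < 21 → x 5 + x 3 + x 8 + x 6 + x 7 ≤ 53 := hb 5
  have b6 : x 6 < 21 → x 6 + x 7 + x 0 + x 1 + x 2 ≤ 53 := hb 6
  have b7 : x 7 < 21 → x 7 + x 8 + x 1 + x 2 + x 0 ≤ 53 := hb 7
  have b8 : x 8 < 21 → x 8 + x 6 + x 2 + x 0 + x 1 ≤ 53 := hb 8
  have h0 := hx 0
  have h1 := hx 1
  have h2 := hx 2
  have h3 := hx 3
  have h4 := hx 4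
  have h5 := hx 5
  have h6 := hx 6
  have h7 := hx 7
  have h8 := hx 8
  have c1 := inner_class (x 0) (x 1) (x 2) (x 3 + x 4 + x 5) h0 h1 h2
    (fun h => by have := r0 h; omega) (fun h => by have := b0 h; omega)
    (fun h => by have := r1 h; omega) (fun h => by have := b1 h; omega)
    (fun h => by have := r2 h; omega) (fun h => by have := b2 h; omega)
  have c2 := inner_class (x 3) (x 4) (x 5) (x 6 + x 7 + x 8) h3 h4 h5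
    (fun h => by have := r3 h; omega) (fun h => by have := b3 h; omega)
    (fun h => by have := r4 h; omega) (fun h => by have := b4 h; omega)
    (fun h => by have := r5 h; omega) (fun h => by have := b5 h; omega)
  have c3 := inner_class (x 6) (x 7) (x 8) (x 0 + x 1 + x 2) h6 h7 h8
    (fun h => by have := r6 h; omega) (fun h => by have := b6 h; omega)
    (fun h => by have := r7 h; omega) (fun h => by have := b7 h; omega)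
    (fun h => by have := r8 h; omega) (fun h => by have := b8 h; omega)
  have c := outer_class (x 0 + x 1 + x 2) (x 3 + x 4 + x 5) (x 6 + x 7 + x 8)
    (by omega) (by omega) (by omega) c1 c2 c3
  clear r0 r1 r2 r3 r4 r5 r6 r7 r8 b0 b1 b2 b3 b4 b5 b6 b7 b8 c1 c2 c3 hr hb
  rcases c with c | c
  · left
    intro u
    fin_cases u <;> simp <;> omega
  · right
    intro u
    fin_cases u <;> simp <;> omega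

/-- Weight of a point with label `t` whose in-neighbours carry labels `a b c d`:
label `2` is dead, labels `0` and `1` are the two sides. -/
def w4 (t a b c d : Fin 3) : ℕ :=
  if t = 2 then 51
  else if (a ≠ 2 ∧ a ≠ t) ∨ (b ≠ 2 ∧ b ≠ t) ∨ (c ≠ 2 ∧ c ≠ t) ∨ (d ≠ 2 ∧ d ≠ t) then 21 else 0

set_option synthInstance.maxSize 4000 in
theorem wt_sum_aux : ∀ t0 t1 t2 t3 t4 t5 t6 t7 t8 : Fin 3,
    (t0 = 0 ∨ t1 = 0 ∨ t2 = 0 ∨ t3 = 0 ∨ t4 = 0 ∨ t5 = 0 ∨ t6 = 0 ∨ t7 = 0 ∨ t8 = 0) →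
    (t0 = 1 ∨ t1 = 1 ∨ t2 = 1 ∨ t3 = 1 ∨ t4 = 1 ∨ t5 = 1 ∨ t6 = 1 ∨ t7 = 1 ∨ t8 = 1) →
    105 ≤ w4 t0 t2 t6 t8 t7 + w4 t1 t0 t7 t6 t8 + w4 t2 t1 t8 t7 t6 +
      w4 t3 t5 t0 t2 t1 + w4 t4 t3 t1 t0 t2 + w4 t5 t4 t2 t1 t0 +
      w4 t6 t8 t3 t5 t4 + w4 t7 t6 t4 t3 t5 + w4 t8 t7 t5 t4 t3 := by
  decide +kernel

/-- Weight of a point under a labelling. -/
def wt (τ : Fin 9 → Fin 3) (v : Fin 9) : ℕ :=
  w4 (τ v) (τ (inN v 0)) (τ (inN v 1)) (τ (inN v 2)) (τ (inN v 3))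

theorem wt_sum (τ : Fin 9 → Fin 3) (h0 : ∃ u, τ u = 0) (h1 : ∃ u, τ u = 1) :
    105 ≤ ∑ v, wt τ v := by
  have h := wt_sum_aux (τ 0) (τ 1) (τ 2) (τ 3) (τ 4) (τ 5) (τ 6) (τ 7) (τ 8)
    (by
      obtain ⟨u, hu⟩ := h0
      fin_cases u <;> simp at hu <;> simp [hu])
    (by
      obtain ⟨u, hu⟩ := h1
      fin_cases u <;> simp at hu <;> simp [hu])
  simp only [Fin.sum_univ_succ, Fin.sum_univ_zero]
  have e : w4 (τ 0) (τ 2) (τ 6) (τ 8) (τ 7) + w4 (τ 1) (τ 0) (τ 7) (τ 6) (τ 8) +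
      w4 (τ 2) (τ 1) (τ 8) (τ 7) (τ 6) + w4 (τ 3) (τ 5) (τ 0) (τ 2) (τ 1) +
      w4 (τ 4) (τ 3) (τ 1) (τ 0) (τ 2) + w4 (τ 5) (τ 4) (τ 2) (τ 1) (τ 0) +
      w4 (τ 6) (τ 8) (τ 3) (τ 5) (τ 4) + w4 (τ 7) (τ 6) (τ 4) (τ 3) (τ 5) +
      w4 (τ 8) (τ 7) (τ 5) (τ 4) (τ 3) =
      wt τ 0 + (wt τ 1 + (wt τ 2 + (wt τ 3 + (wt τ 4 + (wt τ 5 + (wt τ 6 + (wt τ 7 +
        (wt τ 8 + 0)))))))) := by
    have e0 : wt τ 0 = w4 (τ 0) (τ 2) (τ 6) (τ 8) (τ 7) := rfl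
    have e1 : wt τ 1 = w4 (τ 1) (τ 0) (τ 7) (τ 6) (τ 8) := rfl
    have e2 : wt τ 2 = w4 (τ 2) (τ 1) (τ 8) (τ 7) (τ 6) := rfl
    have e3 : wt τ 3 = w4 (τ 3) (τ 5) (τ 0) (τ 2) (τ 1) := rfl
    have e4 : wt τ 4 = w4 (τ 4) (τ 3) (τ 1) (τ 0) (τ 2) := rfl
    have e5 : wt τ 5 = w4 (τ 5) (τ 4) (τ 2) (τ 1) (τ 0) := rfl
    have e6 : wt τ 6 = w4 (τ 6) (τ 8) (τ 3) (τ 5) (τ 4) := rfl
    have e7 : wt τ 7 = w4 (τ 7) (τ 6) (τ 4) (τ 3) (τ 5) := rfl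
    have e8 : wt τ 8 = w4 (τ 8) (τ 7) (τ 5) (τ 4) (τ 3) := rfl
    rw [e0, e1, e2, e3, e4, e5, e6, e7, e8]
    ring
  rw [e] at h
  exact h

theorem wt_cases (τ : Fin 9 → Fin 3) (v : Fin 9) (a : ℕ) (ha : a < wt τ v) :
    (τ v = 2 ∧ a < 51) ∨
    (τ v ≠ 2 ∧ a < 21 ∧ ∃ r : Fin 4, τ (inN v r) ≠ 2 ∧ τ (inN v r) ≠ τ v) := by
  unfold wt w4 at ha
  split_ifs at ha with h1 h2
  · exact Or.inl ⟨h1, ha⟩
  · refine Or.inr ⟨h1, ha, ?_⟩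
    rcases h2 with h | h | h | h
    · exact ⟨0, h⟩
    · exact ⟨1, h⟩
    · exact ⟨2, h⟩
    · exact ⟨3, h⟩
  · omega

end Pool.Agent.MP_d17781_co
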