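import Mathlib
import Pool.Agent.MP_d17781_co.Finite

set_option autoImplicit false

namespace Pool.Agent.MP_d17781_co

/-- Vertices: group (9), layer (layers 0, 1, 2 are cliques, layer 3 is independent), index (51). -/
abbrev Vx : Type := Fin 9 × Fin 4 × Fin 51

/-- One-sided adjacency: `x` lies in a clique layer; it is joined to its own layer, to layer 3
of its own group, and to four consecutive ports among the ports of the out-neighbours. -/
def Rel0 (x y : Vx) : Prop :=
  x.2.1.val ≠ 3 ∧ ((x.1 = y.1 ∧ (y.2.1 = x.2.1 ∨ y.2.1.val = 3)) ∨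
    (y.2.1.val = 3 ∧ y.2.2.val < 21 ∧ ∃ r : Fin 4, y.1 = outN x.1 r ∧
      15 * x.2.1.val + x.2.2.val ≤ 21 * r.val + y.2.2.val ∧
      21 * r.val + y.2.2.val ≤ 15 * x.2.1.val + x.2.2.val + 3))

/-- The graph on 1836 vertices. -/
def gr : SimpleGraph Vx := SimpleGraph.fromRel Rel0

theorem gr_adj (x y : Vx) : gr.Adj x y ↔ x ≠ y ∧ (Rel0 x y ∨ Rel0 y x) :=
  SimpleGraph.fromRel_adj _ _ _

section General

variable {V : Type} [DecidableEq V] (G : SimpleGraph V)

/-- `A` induces an `s`-connected subgraph. -/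
def KConn (A : Finset V) (s : ℕ) : Prop :=
  s < A.card ∧ ∀ X : Finset V, X ⊆ A → X.card < s →
    (G.induce ((A \ X : Finset V) : Set V)).Connected

variable {G}

theorem KConn.cut {A : Finset V} {s : ℕ} (h : KConn G A s) (W : V → Prop) (Y : Finset V)
    (hY : (A ∩ Y).card < s) {w : V} (hwA : w ∈ A) (hwW : W w) (hwY : w ∉ Y)
    (hcl : ∀ x ∈ A, W x → x ∉ Y → ∀ y ∈ A, G.Adj x y → W y ∨ y ∈ Y) :
    ∀ z ∈ A, W z ∨ z ∈ Y := by
  intro z hz
  by_cases hzY : z ∈ Y
  · exact Or.inr hzY
  left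
  have hc := h.2 (A ∩ Y) Finset.inter_subset_left hY
  have hw' : w ∈ ((A \ (A ∩ Y) : Finset V) : Set V) := by simp [hwA, hwY]
  have hz' : z ∈ ((A \ (A ∩ Y) : Finset V) : Set V) := by simp [hz, hzY]
  have hr := hc.preconnected ⟨w, hw'⟩ ⟨z, hz'⟩
  rw [SimpleGraph.reachable_iff_reflTransGen] at hr
  have key : ∀ b : ((A \ (A ∩ Y) : Finset V) : Set V),
      Relation.ReflTransGen (G.induce ((A \ (A ∩ Y) : Finset V) : Set V)).Adj ⟨w, hw'⟩ b →
      W b.1 := by
    intro b hb
    induction hb with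
    | refl => exact hwW
    | @tail c d _ hcd ih =>
      have hc1 : c.1 ∈ A ∧ c.1 ∉ Y := by
        have := c.2
        simp only [Finset.coe_sdiff, Finset.coe_inter, Set.mem_sdiff, Finset.mem_coe,
          Set.mem_inter_iff, not_and] at this
        exact ⟨this.1, this.2 this.1⟩
      have hd1 : d.1 ∈ A ∧ d.1 ∉ Y := by
        have := d.2
        simp only [Finset.coe_sdiff, Finset.coe_inter, Set.mem_sdiff, Finset.mem_coe,
          Set.mem_inter_iff, not_and] at this
        exact ⟨this.1, this.2 this.1⟩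
      have hadj : G.Adj c.1 d.1 := hcd
      rcases hcl c.1 hc1.1 ih hc1.2 d.1 hd1.1 hadj with h1 | h1
      · exact h1
      · exact absurd h1 hd1.2
  exact key ⟨z, hz'⟩ hr

theorem KConn.deg {A : Finset V} {s : ℕ} (h : KConn G A s) (Y : Finset V)
    (hY : Y.card < s) {v : V} (hv : v ∈ A) (hcl : ∀ y ∈ A, G.Adj v y → y ∈ Y) : False := by
  have h1 : (A ∩ Y.erase v).card < s :=
    lt_of_le_of_lt (Finset.card_le_card
      (Finset.inter_subset_right.trans (Finset.erase_subset _ _))) hY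
  have h2 := h.cut (fun x => x = v) (Y.erase v) h1 hv rfl (by simp) (by
    intro x _ hx _ y hy hxy
    subst hx
    right
    exact Finset.mem_erase.2 ⟨hxy.ne.symm, hcl y hy hxy⟩)
  have h3 : A ⊆ insert v (A ∩ Y.erase v) := by
    intro z hz
    rcases h2 z hz with h4 | h4
    · simp [h4]
    · exact Finset.mem_insert_of_mem (Finset.mem_inter.2 ⟨hz, h4⟩)
  have h4 := Finset.card_le_card h3
  have h5 := Finset.card_insert_le v (A ∩ Y.erase v)
  have h6 := h.1
  omega

end General

end Pool.Agent.MP_d17781_co
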