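import Mathlib
import Pool.Agent.MP_d17781_co.Graph

set_option autoImplicit false

namespace Pool.Agent.MP_d17781_co

/-- An edge of the graph avoiding `X`. -/
def St (X : Finset Vx) (a b : Vx) : Prop := a ∉ X ∧ b ∉ X ∧ gr.Adj a b

/-- Reachability avoiding `X`. -/
def Rch (X : Finset Vx) (a b : Vx) : Prop := Relation.ReflTransGen (St X) a b

theorem Rch.rfl' {X : Finset Vx} {a : Vx} : Rch X a a := Relation.ReflTransGen.refl

theorem Rch.tr {X : Finset Vx} {a b c : Vx} (h1 : Rch X a b) (h2 : Rch X b c) : Rch X a c :=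
  Relation.ReflTransGen.trans h1 h2

theorem Rch.one {X : Finset Vx} {a b : Vx} (ha : a ∉ X) (hb : b ∉ X) (h : gr.Adj a b) :
    Rch X a b := Relation.ReflTransGen.single ⟨ha, hb, h⟩

theorem Rch.sy {X : Finset Vx} {a b : Vx} (h : Rch X a b) : Rch X b a := by
  induction h with
  | refl => exact Rch.rfl'
  | tail _ h2 ih => exact (Rch.one h2.2.1 h2.1 h2.2.2.symm).tr ih

theorem count_le {ι : Type} [DecidableEq ι] (X : Finset Vx) (T : Finset ι) (lab : Vx → ι)
    (h : ∀ c ∈ T, ∃ x ∈ X, lab x = c) : T.card ≤ X.card := by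
  refine le_trans (Finset.card_le_card ?_) (Finset.card_image_le (f := lab))
  intro c hc
  exact Finset.mem_image.2 (h c hc)

theorem adj_sep {x y : Vx} (hx : x.2.1.val ≠ 3) (hy : y.2.1.val = 3) (h : x.1 = y.1) :
    gr.Adj x y := by
  rw [gr_adj]
  refine ⟨?_, Or.inl ⟨hx, Or.inl ⟨h, Or.inr hy⟩⟩⟩
  intro e
  rw [e] at hx
  exact hx hy

theorem adj_lay {x y : Vx} (hx : x.2.1.val ≠ 3) (hy : y.2.1 = x.2.1) (h : x.1 = y.1)
    (hne : x ≠ y) : gr.Adj x y := by
  rw [gr_adj]
  exact ⟨hne, Or.inl ⟨hx, Or.inl ⟨h, Or.inl hy⟩⟩⟩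

theorem adj_port {x y : Vx} (hx : x.2.1.val ≠ 3) (hy : y.2.1.val = 3) (hy' : y.2.2.val < 21)
    (r : Fin 4) (h : y.1 = outN x.1 r)
    (h1 : 15 * x.2.1.val + x.2.2.val ≤ 21 * r.val + y.2.2.val)
    (h2 : 21 * r.val + y.2.2.val ≤ 15 * x.2.1.val + x.2.2.val + 3) : gr.Adj x y := by
  rw [gr_adj]
  refine ⟨?_, Or.inl ⟨hx, Or.inr ⟨hy, hy', r, h, h1, h2⟩⟩⟩
  intro e
  rw [e] at hx
  exact hx hy

variable {X : Finset Vx}

theorem exists_clique_vertex (hX : X.card < 105) (u : Fin 9) :
    ∃ z : Vx, z.1 = u ∧ z.2.1.val ≠ 3 ∧ z ∉ X := by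
  by_contra hne
  push Not at hne
  have := count_le X (Finset.range 105) (fun x => 51 * x.2.1.val + x.2.2.val) (by
    intro c hc
    have hc' := Finset.mem_range.1 hc
    refine ⟨(u, ⟨c / 51, by omega⟩, ⟨c % 51, by omega⟩), hne _ rfl (by simp only; omega), ?_⟩
    simp only
    omega)
  rw [Finset.card_range] at this
  omega

theorem block_conn (hX : X.card < 105) {p y : Vx} (hp : p.2.1.val = 3) (hpX : p ∉ X)
    (hy : y ∉ X) (h : y.1 = p.1) : Rch X p y := by
  by_cases hy3 : y.2.1.val = 3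
  · obtain ⟨z, hz1, hz2, hz3⟩ := exists_clique_vertex hX p.1
    exact (Rch.one hz3 hpX (adj_sep hz2 hp hz1)).sy.tr
      (Rch.one hz3 hy (adj_sep hz2 hy3 (hz1.trans h.symm)))
  · exact (Rch.one hy hpX (adj_sep hy3 hp h)).sy

theorem reach_sep (hX : X.card < 105) {x : Vx} (hx : x ∉ X) :
    ∃ p : Vx, p.2.1.val = 3 ∧ p ∉ X ∧ Rch X x p := by
  by_contra hne
  push Not at hne
  obtain ⟨u, i, j⟩ := x
  have hdead : ∀ a : Fin 51, ((u, 3, a) : Vx) ∈ X := by
    intro a
    by_contra ha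
    exact hne (u, 3, a) rfl ha (block_conn hX rfl ha hx rfl).sy
  have hi : i.val ≠ 3 := by
    intro h3
    exact hne (u, i, j) h3 hx Rch.rfl'
  have hi3 := i.2
  have hj := j.2
  have := count_le X (Finset.range 105) (fun y => if y.1 = u then
      (if y.2.1.val = 3 then 54 + y.2.2.val else if y.2.2.val < j.val then y.2.2.val
        else y.2.2.val + 3)
      else 21 * posN u y.1 + y.2.2.val - 15 * i.val) (by
    intro c hc
    have hc' := Finset.mem_range.1 hc
    by_cases h54 : 54 ≤ c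
    · refine ⟨(u, 3, ⟨c - 54, by omega⟩), hdead _, ?_⟩
      have e3 : ((3 : Fin 4) : ℕ) = 3 := rfl
      simp only [if_true, e3]
      omega
    · have hr : (15 * i.val + c) / 21 < 4 := by omega
      have ha : (15 * i.val + c) % 21 < 51 := by omega
      set p : Vx := (outN u ⟨(15 * i.val + c) / 21, hr⟩, 3, ⟨(15 * i.val + c) % 21, ha⟩)
        with hpdef
      by_cases hp : p ∈ X
      · refine ⟨p, hp, ?_⟩
        have e1 : p.1 ≠ u := outN_ne _ _
        have e2 : posN u p.1 = (15 * i.val + c) / 21 := posN_outN _ _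
        have e3 : p.2.2.val = (15 * i.val + c) % 21 := rfl
        simp only [e1, if_false, e2, e3]
        omega
      · have key : ∀ j' : Fin 51, j'.val ≤ c → c ≤ j'.val + 3 → ((u, i, j') : Vx) ∈ X := by
          intro j' h1 h2
          by_contra hj'
          have hadj : gr.Adj ((u, i, j') : Vx) p :=
            adj_port hi rfl (by simp only [hpdef]; omega) ⟨(15 * i.val + c) / 21, hr⟩ rfl
              (by simp only [hpdef]; omega) (by simp only [hpdef]; omega)
          have h3 : Rch X (u, i, j) (u, i, j') := by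
            by_cases e : ((u, i, j) : Vx) = (u, i, j')
            · rw [e]
              exact Rch.rfl'
            · exact Rch.one hx hj' (adj_lay hi rfl rfl e)
          exact hne p rfl hp (h3.tr (Rch.one hj' hp hadj))
        by_cases hcj : c < j.val
        · refine ⟨(u, i, ⟨c, by omega⟩), key _ (by simp) (by simp), ?_⟩
          simp only [if_true, hi, if_false, hcj]
        · by_cases hcj' : c ≤ j.val + 3
          · exact absurd (key j (by omega) hcj') hx
          · refine ⟨(u, i, ⟨c - 3, by omega⟩), key _ (by simp) (by simp only; omega), ?_⟩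
            have e : ¬ (c - 3 < j.val) := by omega
            simp only [if_true, hi, if_false, e]
            omega)
  rw [Finset.card_range] at this
  omega

theorem sep_conn (hX : X.card < 105) {p q : Vx} (hp : p.2.1.val = 3) (hpX : p ∉ X)
    (hq : q.2.1.val = 3) (hqX : q ∉ X) : Rch X p q := by
  classical
  by_contra hpq
  let τ : Fin 9 → Fin 3 := fun v =>
    if ∀ a : Fin 51, ((v, 3, a) : Vx) ∈ X then 2
    else if ∃ a : Fin 51, ((v, 3, a) : Vx) ∉ X ∧ Rch X p (v, 3, a) then 0 else 1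
  have hτ2 : ∀ v, τ v = 2 ↔ ∀ a : Fin 51, ((v, 3, a) : Vx) ∈ X := by
    intro v
    simp only [τ]
    split_ifs with h1 h2
    · simp [h1]
    · simp [h1]
    · simp [h1]
  have hτ0 : ∀ x : Vx, x ∉ X → τ x.1 ≠ 2 → (τ x.1 = 0 ↔ Rch X p x) := by
    intro x hx h2
    have h3 : ¬ ∀ a : Fin 51, ((x.1, 3, a) : Vx) ∈ X := fun h => h2 ((hτ2 _).2 h)
    simp only [τ]
    rw [if_neg h3]
    split_ifs with h4
    · obtain ⟨a, ha, hr⟩ := h4
      exact ⟨fun _ => hr.tr (block_conn hX rfl ha hx rfl), fun _ => rfl⟩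
    · refine ⟨fun h => absurd h (by decide), fun hr => ?_⟩
      exfalso
      push Not at h3
      obtain ⟨a, ha⟩ := h3
      exact h4 ⟨a, ha, hr.tr (block_conn hX rfl ha hx rfl).sy⟩
  have halive : ∀ x : Vx, x.2.1.val = 3 → x ∉ X → τ x.1 ≠ 2 := by
    intro x h3 hx h2
    apply hx
    have e : x = (x.1, 3, x.2.2) := by
      obtain ⟨a, b, c⟩ := x
      simp only [Prod.mk.injEq, true_and, and_true]
      exact Fin.ext h3
    rw [e]
    exact (hτ2 _).1 h2 _
  have h0 : ∃ u, τ u = 0 := ⟨p.1, (hτ0 p hpX (halive p hp hpX)).2 Rch.rfl'⟩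
  have h1 : ∃ u, τ u = 1 := by
    refine ⟨q.1, ?_⟩
    have a1 := halive q hq hqX
    have a2 : τ q.1 ≠ 0 := fun h => hpq ((hτ0 q hqX a1).1 h)
    omega
  have hsum := wt_sum τ h0 h1
  have hcount := count_le X
    ((Finset.univ : Finset (Fin 9)).sigma (fun v => Finset.range (wt τ v)))
    (fun x => if x.2.1.val = 3 then (⟨x.1, x.2.2.val⟩ : Σ _ : Fin 9, ℕ)
      else ⟨outN x.1 ⟨((if x.2.1.val = 0 then x.2.2.val else x.2.2.val + 33) / 21) % 4,
          Nat.mod_lt _ (by norm_num)⟩,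
        (if x.2.1.val = 0 then x.2.2.val else x.2.2.val + 33) % 21⟩) (by
    rintro ⟨v, a⟩ hc
    have ha : a < wt τ v := Finset.mem_range.1 (Finset.mem_sigma.1 hc).2
    have e3 : ((3 : Fin 4) : ℕ) = 3 := rfl
    rcases wt_cases τ v a ha with ⟨h2, ha'⟩ | ⟨h2, ha', r, h3, h4⟩
    · exact ⟨(v, 3, ⟨a, ha'⟩), (hτ2 v).1 h2 _, by simp only [e3, if_true]⟩
    · by_cases hy : ((v, 3, ⟨a, by omega⟩) : Vx) ∈ X
      · exact ⟨_, hy, by simp only [e3, if_true]⟩
      · have hr := r.2
        have key : ∀ x : Vx, x.1 = inN v r → x.2.1.val ≠ 3 →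
            15 * x.2.1.val + x.2.2.val ≤ 21 * r.val + a →
            21 * r.val + a ≤ 15 * x.2.1.val + x.2.2.val + 3 → x ∈ X := by
          intro x hx1 hx3 hx4 hx5
          by_contra hx
          have hadj : gr.Adj x ((v, 3, ⟨a, by omega⟩) : Vx) :=
            adj_port hx3 rfl ha' r (by rw [hx1, outN_inN]) hx4 hx5
          have b1 := hτ0 x hx (by rw [hx1]; exact h3)
          have b2 := hτ0 _ hy h2
          have b3 : Rch X p x ↔ Rch X p ((v, 3, ⟨a, by omega⟩) : Vx) :=
            ⟨fun h => h.tr (Rch.one hx hy hadj), fun h => h.tr (Rch.one hx hy hadj).sy⟩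
          have b4 : τ (inN v r) = 0 ↔ τ v = 0 := by
            rw [← hx1]
            exact b1.trans (b3.trans b2.symm)
          omega
        by_cases he : 21 * r.val + a < 51
        · refine ⟨(inN v r, 0, ⟨21 * r.val + a, he⟩), key _ rfl (by simp) (by simp) (by simp), ?_⟩
          have e0 : ((0 : Fin 4) : ℕ) = 0 := rfl
          have e1 : (21 * r.val + a) / 21 % 4 = r.val := by omega
          have e2 : (21 * r.val + a) % 21 = a := by omega
          simp only [e0, if_true, e1, e2, Fin.eta, outN_inN]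
          rw [if_neg (by decide)]
        · have e0 : ((2 : Fin 4) : ℕ) = 2 := rfl
          refine ⟨(inN v r, 2, ⟨21 * r.val + a - 33, by omega⟩),
            key _ rfl (by simp) (by simp only [e0]; omega) (by simp only [e0]; omega), ?_⟩
          have e1 : (21 * r.val + a - 33 + 33) / 21 % 4 = r.val := by omega
          have e2 : (21 * r.val + a - 33 + 33) % 21 = a := by omega
          have e4 : ¬ ((2 : ℕ) = 0) := by decide
          have e5 : ¬ ((2 : ℕ) = 3) := by decide
          simp only [e0, e4, e5, if_false, e1, e2, Fin.eta, outN_inN])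
  rw [Finset.card_sigma] at hcount
  simp only [Finset.card_range] at hcount
  omega

theorem all_conn (hX : X.card < 105) {x y : Vx} (hx : x ∉ X) (hy : y ∉ X) : Rch X x y := by
  obtain ⟨p, hp1, hp2, hp3⟩ := reach_sep hX hx
  obtain ⟨q, hq1, hq2, hq3⟩ := reach_sep hX hy
  exact hp3.tr ((sep_conn hX hp1 hp2 hq1 hq2).tr hq3.sy)

theorem gr_connected (hX : X.card < 105) :
    (gr.induce ((Finset.univ \ X : Finset Vx) : Set Vx)).Connected := by
  have hmem : ∀ x : Vx, x ∈ ((Finset.univ \ X : Finset Vx) : Set Vx) ↔ x ∉ X := by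
    intro x
    simp
  obtain ⟨z, _, _, hz⟩ := exists_clique_vertex hX 0
  have : Nonempty ((Finset.univ \ X : Finset Vx) : Set Vx) := ⟨⟨z, (hmem z).2 hz⟩⟩
  refine SimpleGraph.Connected.mk ?_
  rintro ⟨x, hx⟩ ⟨y, hy⟩
  have h := all_conn hX ((hmem x).1 hx) ((hmem y).1 hy)
  have key : ∀ y : Vx, Rch X x y → ∀ hy : y ∈ ((Finset.univ \ X : Finset Vx) : Set Vx),
      (gr.induce ((Finset.univ \ X : Finset Vx) : Set Vx)).Reachable ⟨x, hx⟩ ⟨y, hy⟩ := by
    intro y h
    induction h with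
    | refl => intro _; rfl
    | @tail b c _ h2 ih =>
      intro hc
      have hb := (hmem b).2 h2.1
      have hadj : (gr.induce ((Finset.univ \ X : Finset Vx) : Set Vx)).Adj ⟨b, hb⟩ ⟨c, hc⟩ :=
        h2.2.2
      exact (ih hb).trans hadj.reachable
  exact key y h hy

end Pool.Agent.MP_d17781_co
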