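import Mathlib
import Pool.Agent.MP_d17781_co.Graph

set_option autoImplicit false

namespace Pool.Agent.MP_d17781_co

def layerSet (u : Fin 9) (l : Fin 4) : Finset Vx :=
  Finset.univ.image (fun j : Fin 51 => ((u, l, j) : Vx))

theorem layerSet_card (u : Fin 9) (l : Fin 4) : (layerSet u l).card ≤ 51 :=
  Finset.card_image_le.trans (by simp)

theorem mem_layerSet {u : Fin 9} {l : Fin 4} {x : Vx} :
    x ∈ layerSet u l ↔ x.1 = u ∧ x.2.1 = l := by
  obtain ⟨a, b, c⟩ := x
  simp only [layerSet, Finset.mem_image, Finset.mem_univ, true_and, Prod.mk.injEq]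
  constructor
  · rintro ⟨j, h1, h2, _⟩
    exact ⟨h1.symm, h2.symm⟩
  · rintro ⟨h1, h2⟩
    exact ⟨c, h1.symm, h2.symm, rfl⟩

def ports (v : Fin 9) : Finset Vx :=
  Finset.univ.image (fun a : Fin 21 => ((v, 3, ⟨a.val, by omega⟩) : Vx))

theorem ports_card (v : Fin 9) : (ports v).card = 21 := by
  unfold ports
  rw [Finset.card_image_of_injective]
  · simp
  · intro a b h
    simp only [Prod.mk.injEq, Fin.mk.injEq, true_and] at h
    exact Fin.ext h

theorem mem_ports {v : Fin 9} {x : Vx} :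
    x ∈ ports v ↔ x.1 = v ∧ x.2.1.val = 3 ∧ x.2.2.val < 21 := by
  obtain ⟨a, b, c⟩ := x
  simp only [ports, Finset.mem_image, Finset.mem_univ, true_and, Prod.mk.injEq]
  constructor
  · rintro ⟨j, h1, h2, h3⟩
    refine ⟨h1.symm, by rw [← h2]; rfl, ?_⟩
    rw [← h3]
    exact j.2
  · rintro ⟨h1, h2, h3⟩
    exact ⟨⟨c.val, h3⟩, h1.symm, Fin.ext h2.symm, rfl⟩

def inNb (v : Fin 9) (a : ℕ) : Finset Vx :=
  Finset.univ.image (fun t : Fin 4 × Fin 3 × Fin 4 =>
    ((inN v t.1, t.2.1.castSucc,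
      ⟨(21 * t.1.val + a - 15 * t.2.1.val - t.2.2.val) % 51, Nat.mod_lt _ (by norm_num)⟩) : Vx))

theorem inNb_card (v : Fin 9) (a : ℕ) : (inNb v a).card ≤ 48 :=
  Finset.card_image_le.trans (by simp)

theorem sep_adj {x y : Vx} (hx : x.2.1.val = 3) (h : gr.Adj x y) :
    y.2.1.val ≠ 3 ∧ (y.1 = x.1 ∨ (x.2.2.val < 21 ∧ y ∈ inNb x.1 x.2.2.val)) := by
  rw [gr_adj] at h
  rcases h.2 with h1 | h1
  · exact absurd hx h1.1
  · refine ⟨h1.1, ?_⟩
    rcases h1.2 with h2 | ⟨_, h3, r, h4, h5, h6⟩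
    · exact Or.inl h2.1
    · right
      refine ⟨h3, ?_⟩
      obtain ⟨u, i, j⟩ := y
      have hi : i.val ≠ 3 := h1.1
      have hi' : i.val < 3 := by omega
      simp only at h4 h5 h6
      refine Finset.mem_image.2 ⟨(r, ⟨i.val, hi'⟩,
        ⟨21 * r.val + x.2.2.val - 15 * i.val - j.val, by omega⟩), Finset.mem_univ _, ?_⟩
      have hj := j.2
      simp only [Prod.mk.injEq]
      refine ⟨by rw [h4, inN_outN], Fin.ext rfl, Fin.ext ?_⟩
      simp only
      omega

theorem lay_adj {x y : Vx} (hx : x.2.1.val ≠ 3) (h : gr.Adj x y) :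
    (y.1 = x.1 ∧ (y.2.1 = x.2.1 ∨ y.2.1.val = 3)) ∨ ∃ r : Fin 4, y ∈ ports (outN x.1 r) := by
  rw [gr_adj] at h
  rcases h.2 with h1 | h1
  · rcases h1.2 with h2 | ⟨h2, h3, r, h4, _, _⟩
    · exact Or.inl ⟨h2.1.symm, h2.2⟩
    · exact Or.inr ⟨r, mem_ports.2 ⟨h4, h2, h3⟩⟩
  · rcases h1.2 with h2 | ⟨h2, _⟩
    · left
      refine ⟨h2.1, ?_⟩
      rcases h2.2 with h3 | h3
      · exact Or.inl h3.symm
      · exact absurd h3 hx
    · exact absurd h2 hx

/-- A 52-connected induced subgraph is not contained in one group. -/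
theorem not_in_group {A : Finset Vx} (h : KConn gr A 52) (u : Fin 9)
    (hu : ∀ z ∈ A, z.1 = u) : False := by
  have hA := h.1
  by_cases hex : ∃ z ∈ A, z.2.1.val ≠ 3
  · obtain ⟨z, hz, hz3⟩ := hex
    have hY : (A ∩ layerSet u 3).card < 52 :=
      lt_of_le_of_lt ((Finset.card_le_card Finset.inter_subset_right).trans
        (layerSet_card u 3)) (by norm_num)
    have h1 := h.cut (fun x => x.2.1 = z.2.1) (layerSet u 3) hY hz rfl
      (by
        intro h2
        exact hz3 (by rw [(mem_layerSet.1 h2).2]; rfl))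
      (by
        intro x _ hx _ y hy hxy
        have hx3 : x.2.1.val ≠ 3 := by rw [hx]; exact hz3
        rcases lay_adj hx3 hxy with ⟨_, h3 | h3⟩ | ⟨r, h3⟩
        · exact Or.inl (h3.trans hx)
        · exact Or.inr (mem_layerSet.2 ⟨hu y hy, Fin.ext h3⟩)
        · exact Or.inr (mem_layerSet.2 ⟨hu y hy, Fin.ext (mem_ports.1 h3).2.1⟩))
    have h2 : A ⊆ layerSet u z.2.1 := by
      intro w hw
      rcases h1 w hw with h3 | h3
      · exact mem_layerSet.2 ⟨hu w hw, h3⟩
      · exfalso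
        have hw3 : w.2.1.val = 3 := by rw [(mem_layerSet.1 h3).2]; rfl
        refine h.deg (layerSet u z.2.1)
          (lt_of_le_of_lt (layerSet_card _ _) (by norm_num)) hw ?_
        intro y hy hwy
        have hy3 := (sep_adj hw3 hwy).1
        rcases h1 y hy with h4 | h4
        · exact mem_layerSet.2 ⟨hu y hy, h4⟩
        · exact absurd (by rw [(mem_layerSet.1 h4).2]; rfl) hy3
    have h3 := (Finset.card_le_card h2).trans (layerSet_card _ _)
    omega
  · have h2 : A ⊆ layerSet u 3 := by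
      intro w hw
      refine mem_layerSet.2 ⟨hu w hw, Fin.ext ?_⟩
      by_contra h3
      exact hex ⟨w, hw, h3⟩
    have h3 := (Finset.card_le_card h2).trans (layerSet_card _ _)
    omega

/-- If `A` meets the inner part of group `u`, then it has 52 vertices among the ports seen by `u`. -/
theorem inner_needs {A : Finset Vx} (h : KConn gr A 52) (u : Fin 9) {w : Vx} (hw : w ∈ A)
    (hwu : w.1 = u) (hw3 : w.2.1.val ≠ 3 ∨ 21 ≤ w.2.2.val) :
    52 ≤ (A ∩ ports u).card + (A ∩ ports (outN u 0)).card + (A ∩ ports (outN u 1)).card +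
      (A ∩ ports (outN u 2)).card + (A ∩ ports (outN u 3)).card := by
  by_contra hlt
  set Y : Finset Vx := ports u ∪ ports (outN u 0) ∪ ports (outN u 1) ∪ ports (outN u 2) ∪
    ports (outN u 3) with hYdef
  have hYmem : ∀ y, y ∈ Y ↔ y ∈ ports u ∨ ∃ r : Fin 4, y ∈ ports (outN u r) := by
    intro y
    simp only [hYdef, Finset.mem_union]
    constructor
    · rintro ((((h1 | h1) | h1) | h1) | h1)
      · exact Or.inl h1
      · exact Or.inr ⟨0, h1⟩
      · exact Or.inr ⟨1, h1⟩
      · exact Or.inr ⟨2, h1⟩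
      · exact Or.inr ⟨3, h1⟩
    · rintro (h1 | ⟨r, h1⟩)
      · exact Or.inl (Or.inl (Or.inl (Or.inl h1)))
      · fin_cases r
        · exact Or.inl (Or.inl (Or.inl (Or.inr h1)))
        · exact Or.inl (Or.inl (Or.inr h1))
        · exact Or.inl (Or.inr h1)
        · exact Or.inr h1
  have hY3 : ∀ y ∈ Y, y.2.1.val = 3 ∧ y.2.2.val < 21 := by
    intro y hy
    rcases (hYmem y).1 hy with h1 | ⟨r, h1⟩
    · exact (mem_ports.1 h1).2
    · exact (mem_ports.1 h1).2
  have hY : (A ∩ Y).card < 52 := by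
    have e : A ∩ Y = A ∩ ports u ∪ A ∩ ports (outN u 0) ∪ A ∩ ports (outN u 1) ∪
        A ∩ ports (outN u 2) ∪ A ∩ ports (outN u 3) := by
      simp only [hYdef, Finset.inter_union_distrib_left]
    rw [e]
    have a1 := Finset.card_union_le (A ∩ ports u ∪ A ∩ ports (outN u 0) ∪ A ∩ ports (outN u 1) ∪
        A ∩ ports (outN u 2)) (A ∩ ports (outN u 3))
    have a2 := Finset.card_union_le (A ∩ ports u ∪ A ∩ ports (outN u 0) ∪ A ∩ ports (outN u 1))
        (A ∩ ports (outN u 2))
    have a3 := Finset.card_union_le (A ∩ ports u ∪ A ∩ ports (outN u 0))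
      (A ∩ ports (outN u 1))
    have a4 := Finset.card_union_le (A ∩ ports u) (A ∩ ports (outN u 0))
    omega
  have h1 := h.cut (fun x => x.1 = u ∧ (x.2.1.val ≠ 3 ∨ 21 ≤ x.2.2.val)) Y hY hw ⟨hwu, hw3⟩
    (by
      intro h2
      have := hY3 w h2
      omega)
    (by
      intro x _ hx _ y _ hxy
      by_cases hx3 : x.2.1.val = 3
      · have h2 := sep_adj hx3 hxy
        have h3 : 21 ≤ x.2.2.val := by
          rcases hx.2 with h4 | h4
          · exact absurd hx3 h4
          · exact h4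
        rcases h2.2 with h4 | h4
        · exact Or.inl ⟨h4.trans hx.1, Or.inl h2.1⟩
        · omega
      · rcases lay_adj hx3 hxy with ⟨h2, h3⟩ | ⟨r, h2⟩
        · by_cases hy : y.2.1.val ≠ 3 ∨ 21 ≤ y.2.2.val
          · exact Or.inl ⟨h2.trans hx.1, hy⟩
          · right
            refine (hYmem y).2 (Or.inl (mem_ports.2 ⟨h2.trans hx.1, ?_, ?_⟩)) <;> omega
        · right
          refine (hYmem y).2 (Or.inr ⟨r, ?_⟩)
          rw [← hx.1]
          exact h2)
  refine not_in_group h u ?_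
  intro z hz
  by_contra hzu
  rcases h1 z hz with h2 | h2
  · exact hzu h2.1
  · have hz3 := hY3 z h2
    refine h.deg (inNb z.1 z.2.2.val) (lt_of_le_of_lt (inNb_card _ _) (by norm_num)) hz ?_
    intro y hy hzy
    have h3 := sep_adj hz3.1 hzy
    rcases h3.2 with h4 | h4
    · exfalso
      rcases h1 y hy with h5 | h5
      · exact hzu (h4.symm.trans h5.1)
      · exact h3.1 (hY3 y h5).1
    · exact h4.2

theorem port_needs {A : Finset Vx} (h : KConn gr A 52) (u : Fin 9)
    (hp : 0 < (A ∩ ports u).card) :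
    52 ≤ (A ∩ ports u).card + (A ∩ ports (outN u 0)).card + (A ∩ ports (outN u 1)).card +
      (A ∩ ports (outN u 2)).card + (A ∩ ports (outN u 3)).card := by
  obtain ⟨p, hp⟩ := Finset.card_pos.1 hp
  obtain ⟨hpA, hpu⟩ := Finset.mem_inter.1 hp
  obtain ⟨h1, h2, h3⟩ := mem_ports.1 hpu
  by_cases hex : ∃ w ∈ A, w.1 = u ∧ w.2.1.val ≠ 3
  · obtain ⟨w, hw, hwu, hw3⟩ := hex
    exact inner_needs h u hw hwu (Or.inl hw3)
  · exfalso
    refine h.deg (inNb p.1 p.2.2.val) (lt_of_le_of_lt (inNb_card _ _) (by norm_num)) hpA ?_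
    intro y hy hpy
    have h4 := sep_adj h2 hpy
    rcases h4.2 with h5 | h5
    · exact absurd ⟨y, hy, h5.trans h1, h4.1⟩ hex
    · exact h5.2

theorem has_port {A : Finset Vx} (h : KConn gr A 52) :
    ¬ ∀ u, (A ∩ ports u).card = 0 := by
  intro h0
  have hA := h.1
  obtain ⟨w, hw⟩ : A.Nonempty := Finset.card_pos.1 (by omega)
  by_cases hw3 : w.2.1.val ≠ 3 ∨ 21 ≤ w.2.2.val
  · have := inner_needs h w.1 hw rfl hw3
    simp only [h0] at this
    omega
  · have h1 : w ∈ A ∩ ports w.1 :=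
      Finset.mem_inter.2 ⟨hw, mem_ports.2 ⟨rfl, by omega, by omega⟩⟩
    have h2 := Finset.card_pos.2 ⟨w, h1⟩
    have h3 := h0 w.1
    omega

theorem no_partition {A B : Finset Vx} (hd : Disjoint A B) (hu : A ∪ B = Finset.univ)
    (hA : KConn gr A 52) (hB : KConn gr B 52) : False := by
  have hs : ∀ u, (A ∩ ports u).card + (B ∩ ports u).card = 21 := by
    intro u
    rw [← Finset.card_union_of_disjoint
      (Finset.disjoint_of_subset_left Finset.inter_subset_left
        (Finset.disjoint_of_subset_right Finset.inter_subset_left hd)),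
      ← Finset.union_inter_distrib_right, hu, Finset.univ_inter, ports_card]
  have := abstract_system (fun u => (A ∩ ports u).card)
    (fun u => by have := hs u; omega)
    (fun u h => port_needs hA u h)
    (fun u h => by
      have h1 := port_needs hB u (by have := hs u; omega)
      have a0 := hs u
      have a1 := hs (outN u 0)
      have a2 := hs (outN u 1)
      have a3 := hs (outN u 2)
      have a4 := hs (outN u 3)
      omega)
  rcases this with h | h
  · exact has_port hA h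
  · refine has_port hB (fun u => ?_)
    have a0 := hs u
    have a1 := h u
    omega

end Pool.Agent.MP_d17781_co
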