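import Pool.Agent.MP_d17781_co.SqG

namespace Pool.Agent.MP_d17781_co.Sq

open Finset Function

set_option linter.unusedSectionVars false

section
variable {W : Type} [DecidableEq W]

/-- reachability avoiding `X` -/
def Rc (G : SimpleGraph W) (X : Finset W) : W → W → Prop :=
  Relation.ReflTransGen fun a b => a ∉ X ∧ b ∉ X ∧ G.Adj a b

variable {G : SimpleGraph W} {X : Finset W} {x y z : W}

theorem Rc.rf : Rc G X x x := Relation.ReflTransGen.refl

theorem Rc.tr (h1 : Rc G X x y) (h2 : Rc G X y z) : Rc G X x z := Relation.ReflTransGen.trans h1 h2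

theorem Rc.st (h1 : Rc G X x y) (hy : y ∉ X) (hz : z ∉ X) (h : G.Adj y z) : Rc G X x z :=
  Relation.ReflTransGen.tail h1 ⟨hy, hz, h⟩

theorem Rc.sy (h : Rc G X x y) : Rc G X y x := by
  induction h with
  | refl => exact Rc.rf
  | tail _ h2 ih => exact (Rc.rf.st h2.2.1 h2.1 h2.2.2.symm).tr ih

theorem conn_of [Fintype W] (h0 : ∃ z, z ∉ X) (h : ∀ x ∉ X, ∀ y ∉ X, Rc G X x y) :
    (G.induce ((univ \ X : Finset W) : Set W)).Connected := by
  have hm : ∀ x, x ∈ ((univ \ X : Finset W) : Set W) ↔ x ∉ X := by simp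
  obtain ⟨z, hz⟩ := h0
  have : Nonempty ((univ \ X : Finset W) : Set W) := ⟨⟨z, (hm z).2 hz⟩⟩
  refine SimpleGraph.Connected.mk ?_
  rintro ⟨x, hx⟩ ⟨y, hy⟩
  have := h x ((hm x).1 hx) y ((hm y).1 hy)
  induction this with
  | refl => rfl
  | tail h1 h2 ih =>
    exact (ih ((hm _).2 h2.1)).trans (SimpleGraph.Adj.reachable (G := G.induce _) h2.2.2)

theorem count_le {ι : Type} [DecidableEq ι] (X : Finset W) (T : Finset ι) (lab : W → ι)
    (h : ∀ c ∈ T, ∃ x ∈ X, lab x = c) : T.card ≤ X.card :=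
  (card_le_card fun c hc => mem_image.2 (h c hc)).trans (card_image_le (f := lab))

end

namespace Dt

variable {h a m : ℕ} [NeZero h] {D : Dt h a m} {X : Finset (V h a)}

theorem adj_of {u : U h} {i j : Fin 3} {w : Wd a} {y : V h a} (hne : (u, .inl (i, j), w) ≠ y)
    (h : (y.1 = u ∧ (y.2.1 = .inl (i, j) ∨ y.2.1 = .inr (some i) ∨
      (y.2.1 = .inr none ∧ y.2.2.1 = j))) ∨ y = D.tg u j w) : D.gr.Adj (u, .inl (i, j), w) y :=
  (SimpleGraph.fromRel_adj _ _ _).2 ⟨hne, Or.inl ⟨i, j, rfl, h⟩⟩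

theorem adjT (u : U h) (i j : Fin 3) (w w' : Wd a) :
    D.gr.Adj (u, .inl (i, j), w) (u, .inr (some i), w') :=
  adj_of (by simp) (Or.inl ⟨rfl, Or.inr (Or.inl rfl)⟩)

theorem adjZ (u : U h) (i j : Fin 3) (w : Wd a) (y : Fin a) :
    D.gr.Adj (u, .inl (i, j), w) (u, .inr none, j, y) :=
  adj_of (by simp) (Or.inl ⟨rfl, Or.inr (Or.inr ⟨rfl, rfl⟩)⟩)

theorem adjP (u : U h) (i j : Fin 3) (w : Wd a) : D.gr.Adj (u, .inl (i, j), w) (D.tg u j w) :=
  adj_of (by simp [tg, port]) (Or.inr rfl)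

/-- row and column of a layer -/
def rc : Ly → Fin 3 × Fin 3
  | .inl p => p
  | .inr (some i) => (i, 0)
  | .inr none => (0, 0)

theorem toY (hX : X.card < 9 * a) {x : V h a} (hx : x ∉ X) :
    ∃ i j w, (x.1, .inl (i, j), w) ∉ X ∧ Rc D.gr X x (x.1, .inl (i, j), w) := by
  have c9 : (univ : Finset (Fin 3 × Wd a)).card = 9 * a := by simp; ring
  by_contra! hc
  rcases x with ⟨u, ⟨i, j⟩ | _ | i, c, y⟩
  · exact hc i j _ hx Rc.rf
  · refine absurd (count_le X univ (fun x => ((rc x.2.1).1, x.2.2)) fun p _ =>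
      ⟨(u, .inl (p.1, c), p.2), by_contra fun h => ?_, rfl⟩) (not_le.2 (c9 ▸ hX))
    exact hc _ _ _ h (Rc.rf.st hx h (adjZ _ _ _ _ _).symm)
  · refine absurd (count_le X univ (fun x => ((rc x.2.1).2, x.2.2)) fun p _ =>
      ⟨(u, .inl (i, p.1), p.2), by_contra fun h => ?_, rfl⟩) (not_le.2 (c9 ▸ hX))
    exact hc _ _ _ h (Rc.rf.st hx h (adjT _ _ _ _ _).symm)

/-- damaged groups -/
def Dm (X : Finset (V h a)) : Finset (U h) := {u | a ≤ #{x ∈ X | x.1 = u}}

theorem Dm_card (hX : X.card < 7 * a) : (Dm X).card ≤ 6 := by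
  have h1 := card_eq_sum_card_fiberwise (s := X) (t := univ) (f := Prod.fst) fun _ _ => mem_univ _
  have h2 := (card_nsmul_le_sum (Dm X) (fun u => #{x ∈ X | x.1 = u}) a fun u hu =>
    (mem_filter.1 hu).2).trans (sum_le_sum_of_subset (subset_univ _))
  exact Nat.le_of_lt_succ (Nat.lt_of_mul_lt_mul_right (h2.trans_lt (h1 ▸ hX)))

theorem live {u : U h} (hu : u ∉ Dm X) (l : Ly) (c : Fin 3) : ∃ y, (u, l, c, y) ∉ X := by
  by_contra! hc
  refine hu (mem_filter.2 ⟨mem_univ _, ?_⟩)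
  simpa using count_le {x ∈ X | x.1 = u} univ (fun x => x.2.2.2) fun y _ =>
    ⟨_, mem_filter.2 ⟨hc y, rfl⟩, rfl⟩

theorem intact (hX : X.card < 9 * a) {x y : V h a} (hu : x.1 ∉ Dm X) (hx : x ∉ X) (hy : y ∉ X)
    (e : y.1 = x.1) : Rc D.gr X x y := by
  obtain ⟨i, j, w, h1, h2⟩ := toY (D := D) hX hx
  obtain ⟨i', j', w', h3, h4⟩ := toY (D := D) hX hy
  rw [e] at h3 h4
  obtain ⟨t, ht⟩ := live hu (.inr (some i)) 0
  obtain ⟨y, hy⟩ := live hu (.inl (i, j')) 0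
  obtain ⟨z, hz⟩ := live hu (.inr none) j'
  exact ((((h2.st h1 ht (adjT _ _ _ _ _)).st ht hy (adjT _ _ _ _ _).symm).st hy hz
    (adjZ _ _ _ _ _)).st hz h3 (adjZ _ _ _ _ _).symm).tr h4.sy

variable (D) in
/-- the port a vertex is charged to -/
def lb : V h a → U h × ℕ
  | (u, .inl p, w) => (out D.e u (D.φ p.2 w).1, (D.φ p.2 w).2)
  | (u, .inr _, w) => (u, w.2)

theorem blk (H : Finset (U h)) (hH : ∀ v ∈ H, ∃ u i r, out D.e u r = v ∧ ∀ j w, (D.φ j w).1 = r →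
    (u, .inl (i, j), w) ∈ X ∨ D.tg u j w ∈ X) : H.card * m ≤ X.card := by
  have := count_le X (H ×ˢ range m) D.lb fun c hc => by
    obtain ⟨h1, h2⟩ := mem_product.1 hc
    obtain ⟨u, i, r, e, h3⟩ := hH _ h1
    obtain ⟨j, w, h4⟩ := D.sur (r, ⟨c.2, mem_range.1 h2⟩)
    rcases h3 j w (by rw [h4]) with h | h
    · exact ⟨_, h, by simp [lb, h4, e]⟩
    · exact ⟨_, h, by simp [lb, tg, port, h4, e]⟩
  simpa using this

theorem escape (h7 : m * h ≤ 7 * a) (hX : X.card + 6 * m < m * h) {x : V h a} (hx : x ∉ X) :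
    ∃ y ∉ X, y.1 ∉ Dm X ∧ Rc D.gr X x y := by
  by_contra! hc
  have d6 := Dm_card (X := X) (by omega)
  obtain ⟨i, j, w, h1, h2⟩ := toY (D := D) (by omega) hx
  generalize x.1 = u at h1 h2
  have ne : ∀ i j w, Rc D.gr X x (u, .inl (i, j), w) → out D.e u (D.φ j w).1 ∉ Dm X →
      (u, .inl (i, j), w) ∈ X ∨ D.tg u j w ∈ X := fun i j w hr hd => by
    by_contra! h
    exact hc _ h.2 hd (hr.st h.1 h.2 (adjP _ _ _ _))
  have tk : ∀ i j w, (u, .inl (i, j), w) ∉ X → Rc D.gr X x (u, .inl (i, j), w) →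
      ∀ t, (u, .inr (some i), t) ∈ X := fun i j w h1 h2 t => by
    by_contra ht
    have b1 := blk (D := D) (X := X) (univ.image (out D.e u) \ Dm X) fun v hv => by
      obtain ⟨r, -, rfl⟩ := mem_image.1 (mem_sdiff.1 hv).1
      refine ⟨u, i, r, rfl, fun j' w' e => ?_⟩
      by_cases h3 : (u, .inl (i, j'), w') ∈ X
      · exact Or.inl h3
      · exact ne _ _ _ ((h2.st h1 ht (adjT _ _ _ _ _)).st ht h3 (adjT _ _ _ _ _).symm)
          (e ▸ (mem_sdiff.1 hv).2)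
    have b2 := le_card_sdiff (Dm X) (univ.image (out D.e u))
    rw [card_image_of_injective _ (out_inj _ _), card_univ, Fintype.card_fin] at b2
    have b3 := Nat.mul_le_mul_right m (show h ≤ _ + 6 from by
      have := Nat.sub_le_iff_le_add.1 b2
      exact this.trans (Nat.add_le_add_left d6 _))
    rw [add_mul, mul_comm h] at b3
    omega
  by_cases hz : ∃ y, (u, .inr none, j, y) ∉ X
  · obtain ⟨y, hy⟩ := hz
    have b1 := count_le X univ (fun x => ((rc x.2.1).1, x.2.2)) fun p _ => by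
      by_cases h3 : (u, .inl (p.1, j), p.2) ∈ X
      · exact ⟨_, h3, rfl⟩
      · exact ⟨_, tk _ _ _ h3 ((h2.st h1 hy (adjZ _ _ _ _ _)).st hy h3 (adjZ _ _ _ _ _).symm) p.2,
          rfl⟩
    simp only [card_univ, Fintype.card_prod, Fintype.card_fin] at b1
    omega
  · push Not at hz
    have b0 := card_filter_add_card_filter_not (s := X) fun x => x.1 = u ∧ x.2.1.isRight
    have b1 := count_le {x ∈ X | x.1 = u ∧ x.2.1.isRight} (univ : Finset (Option (Fin 3) × Fin a))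
      (fun x => (if x.2.1 = .inr none then none else some x.2.2.1, x.2.2.2)) (by
        rintro ⟨_ | c, y⟩ -
        · exact ⟨_, mem_filter.2 ⟨hz y, rfl, rfl⟩, rfl⟩
        · exact ⟨_, mem_filter.2 ⟨tk _ _ _ h1 h2 (c, y), rfl, rfl⟩, rfl⟩)
    have b2 := count_le {x ∈ X | ¬ (x.1 = u ∧ x.2.1.isRight)}
      ((univ.image fun w => D.lb (u, .inl (i, j), w)) \ Dm X ×ˢ range m) D.lb fun c hc => by
        obtain ⟨w', -, rfl⟩ := mem_image.1 (mem_sdiff.1 hc).1
        by_cases h3 : (u, .inl (i, j), w') ∈ X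
        · exact ⟨_, mem_filter.2 ⟨h3, by simp⟩, rfl⟩
        · have h4 : Rc D.gr X x (u, .inl (i, j), w') := by
            by_cases e : w = w'
            · exact e ▸ h2
            · exact h2.st h1 h3 (adj_of (by simpa using e) (Or.inl ⟨rfl, Or.inl rfl⟩))
          refine ⟨_, mem_filter.2 ⟨(ne _ _ _ h4 fun h => (mem_sdiff.1 hc).2 (mem_product.2
            ⟨h, mem_range.2 (D.φ j w').2.2⟩)).resolve_left h3, fun h => out_ne _ _ _ h.1⟩, rfl⟩
    have b3 := le_card_sdiff (Dm X ×ˢ range m) (univ.image fun w => D.lb (u, .inl (i, j), w))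
    have b5 : Injective fun w => D.lb (u, .inl (i, j), w) := fun w w' e =>
      D.inj j (Prod.ext (out_inj _ _ (Prod.mk.inj e).1) (Fin.ext (Prod.mk.inj e).2))
    rw [card_image_of_injective _ b5, card_product, card_range] at b3
    have b4 := Nat.mul_le_mul_right m d6
    simp only [card_univ, Fintype.card_prod, Fintype.card_fin, Fintype.card_option] at b1 b3
    omega

theorem heads (h7 : m * h ≤ 7 * a) (hX : X.card + 6 * m < m * h) {x y : V h a} (hx : x ∉ X)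
    (hy : y ∉ X) (hx' : x.1 ∉ Dm X) (hy' : y.1 ∉ Dm X) : Rc D.gr X x y := by
  classical
  have d6 := Dm_card (X := X) (by omega)
  let cl : U h → Prop := fun v => ∃ z ∉ X, z.1 = v ∧ Rc D.gr X x z
  have hcl : ∀ z ∉ X, z.1 ∉ Dm X → (cl z.1 ↔ Rc D.gr X x z) := fun z hz hd =>
    ⟨fun ⟨z', h1, h2, h3⟩ => h3.tr (intact (by omega) (h2 ▸ hd) h1 hz h2.symm),
      fun h => ⟨z, hz, rfl, h⟩⟩
  let H : Finset (U h) := {v | v ∉ Dm X ∧ ∃ u ∉ Dm X, ∃ r, out D.e u r = v ∧ ¬ (cl u ↔ cl v)}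
  have b1 := blk (D := D) (X := X) H fun v hv => by
    obtain ⟨h1, u, h2, r, rfl, h3⟩ := (mem_filter.1 hv).2
    refine ⟨u, 0, r, rfl, fun j w e => by_contra fun hc => h3 ?_⟩
    subst e
    obtain ⟨c1, c2⟩ := not_or.1 hc
    exact (hcl _ c1 h2).trans (Iff.trans ⟨fun h => h.st c1 c2 (adjP _ _ _ _),
      fun h => h.st c2 c1 (adjP _ _ _ _).symm⟩ (hcl _ c2 h1).symm)
  have b2 : (H ∪ Dm X).card < h := by
    have : (H.card + 6) * m < h * m := by rw [add_mul, mul_comm h]; omega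
    have := Nat.lt_of_mul_lt_mul_right this
    have := card_union_le H (Dm X)
    omega
  have ex : ∀ f : Fin h → U h, Injective f → ∃ r, f r ∉ H ∧ f r ∉ Dm X := fun f hf => by
    by_contra! hc
    have := card_le_card_of_injOn (s := univ) (t := H ∪ Dm X) f (fun r _ => by
      by_cases h : f r ∈ H
      · exact mem_union_left _ h
      · exact mem_union_right _ (hc r h)) hf.injOn
    rw [card_univ, Fintype.card_fin] at this
    omega
  have ar : ∀ u ∉ Dm X, ∀ r, out D.e u r ∉ H → out D.e u r ∉ Dm X → (cl u ↔ cl (out D.e u r)) :=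
    fun u hu r h1 h2 => by_contra fun hc => h1 (mem_filter.2 ⟨mem_univ _, h2, u, hu, r, rfl, hc⟩)
  have pq : ∀ p q, (false, p) ∉ H → (false, p) ∉ Dm X → (true, q) ∉ H → (true, q) ∉ Dm X →
      (cl (false, p) ↔ cl (true, q)) := fun p q h1 h2 h3 h4 => by
    rcases tour D.e p q with ⟨r, e⟩ | ⟨r, e⟩
    · exact e ▸ ar _ h2 r (e ▸ h3) (e ▸ h4)
    · exact (e ▸ ar _ h4 r (e ▸ h1) (e ▸ h2) :).symm
  obtain ⟨p, p1, p2⟩ := ex (fun s => (false, s, false)) fun _ _ e => (Prod.mk.inj (Prod.mk.inj e).2).1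
  obtain ⟨q, q1, q2⟩ := ex (fun s => (true, s, false)) fun _ _ e => (Prod.mk.inj (Prod.mk.inj e).2).1
  have al : ∀ u ∉ Dm X, (cl u ↔ cl (false, p, false)) := fun u hu => by
    obtain ⟨r, r1, r2⟩ := ex _ (out_inj D.e u)
    refine (ar u hu r r1 r2).trans ?_
    generalize out D.e u r = v at r1 r2
    rcases v with ⟨_ | _, v⟩
    · exact (pq _ _ r1 r2 q1 q2).trans (pq _ _ p1 p2 q1 q2).symm
    · exact (pq _ _ p1 p2 r1 r2).symm
  exact (hcl y hy hy').1 ((al _ hy').2 ((al _ hx').1 ⟨x, hx, rfl, Rc.rf⟩))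

theorem connected (h7 : m * h ≤ 7 * a) (hX : X.card + 6 * m < m * h) :
    (D.gr.induce ((univ \ X : Finset (V h a)) : Set (V h a))).Connected := by
  refine conn_of ?_ fun x hx y hy => ?_
  · by_contra! hc
    have := count_le X univ (fun x => ((rc x.2.1).1, x.2.2)) fun p _ =>
      ⟨((false, 0, false), .inl (p.1, 0), p.2), hc _, rfl⟩
    simp only [card_univ, Fintype.card_prod, Fintype.card_fin] at this
    omega
  · obtain ⟨x', a1, a2, a3⟩ := escape (D := D) h7 hX hx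
    obtain ⟨y', b1, b2, b3⟩ := escape (D := D) h7 hX hy
    exact a3.tr ((heads h7 hX a1 b1 a2 b2).tr b3.sy)

end Dt

end Pool.Agent.MP_d17781_co.Sq
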