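import Pool.Agent.MP_d17781_co.SqLO

namespace Pool.Agent.MP_d17781_co.Sq

open Finset

set_option linter.unusedSectionVars false

/-- vertices of the bipartite tournament -/
abbrev U (h : ℕ) := Bool × Fin h × Bool

variable {h : ℕ} [NeZero h] (e : Fin h → Fin h → Bool)

/-- its out-neighbours -/
def out : U h → Fin h → U h
  | (false, s, b), j => if e s j = b then (true, j, false) else (true, j + s, true)
  | (true, j, false), s => (false, s, !e s j)
  | (true, j, true), s => (false, s, e s (j - s))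

theorem out_side (u : U h) (r : Fin h) : (out e u r).1 = !u.1 := by
  rcases u with ⟨_ | _, s, _ | _⟩ <;> simp only [out] <;> first | rfl | (split_ifs <;> rfl)

theorem out_ne (u : U h) (r : Fin h) : out e u r ≠ u := fun h => by
  simpa [h] using out_side e u r

theorem out_inj (u : U h) : Function.Injective (out e u) := by
  intro r r' h
  rcases u with ⟨_ | _, s, b⟩
  · simp only [out] at h
    split_ifs at h <;> simp_all
  · cases b <;> exact (Prod.mk.inj (Prod.mk.inj h).2).1

theorem tour (p q : Fin h × Bool) :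
    (∃ r, out e (false, p) r = (true, q)) ∨ ∃ r, out e (true, q) r = (false, p) := by
  rcases p with ⟨s, b⟩
  rcases q with ⟨j, _ | _⟩
  · by_cases h : e s j = b
    · exact Or.inl ⟨j, by simp [out, h]⟩
    · exact Or.inr ⟨s, by simp [out, Bool.eq_not_iff.2 h]⟩
  · by_cases h : e s (j - s) = b
    · exact Or.inr ⟨s, by simp [out, h]⟩
    · exact Or.inl ⟨j - s, by simp [out, h]⟩

theorem shift (f : Fin h → ℝ) (s : Fin h) : ∑ j, f (j + s) = ∑ j, f j :=
  Equiv.sum_comp (Equiv.addRight s) f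

theorem sumU (f : U h → ℝ) : ∑ u, f u = ∑ s, (f (false, s, false) + f (false, s, true)) +
    ∑ j, (f (true, j, false) + f (true, j, true)) := by
  simp only [Fintype.sum_prod_type, Fintype.sum_bool]
  rw [add_comm]
  congr 1 <;> exact sum_congr rfl fun _ _ => add_comm _ _

theorem quad (f : U h → ℝ) : ∑ u, f u * ∑ r, f (out e u r) =
    (∑ s, (f (false, s, false) + f (false, s, true))) *
      ∑ j, (f (true, j, false) + f (true, j, true)) := by
  have a1 : ∑ j, f (true, j, true) * ∑ s, f (out e (true, j, true) s) =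
      ∑ s, ∑ j, f (true, j + s, true) * f (false, s, e s j) := by
    simp only [mul_sum]
    rw [sum_comm]
    refine sum_congr rfl fun s _ => ?_
    rw [← shift _ s]
    simp [out]
  have a2 : ∑ j, f (true, j, false) * ∑ s, f (out e (true, j, false) s) =
      ∑ s, ∑ j, f (true, j, false) * f (false, s, !e s j) := by
    simp only [mul_sum]
    rw [sum_comm]
    rfl
  rw [sumU, sum_add_distrib (f := fun j => f (true, j, false) * _), a1, a2, ← sum_add_distrib,
    ← sum_add_distrib, sum_mul]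
  refine sum_congr rfl fun s _ => ?_
  rw [sum_add_distrib (f := fun j => f (true, j, false)), ← shift (fun j => f (true, j, true)) s,
    mul_sum, mul_sum, ← sum_add_distrib, ← sum_add_distrib, ← sum_add_distrib, ← sum_add_distrib,
    mul_sum]
  refine sum_congr rfl fun j _ => ?_
  cases h : e s j <;> simp [out, h] <;> ring

theorem mass (f : U h → ℝ) (h0 : ∀ u, 0 ≤ f u) (h1 : ∃ u, 0 < f u) (L : ℝ)
    (h2 : ∀ u, 0 < f u → L ≤ ∑ r, f (out e u r)) : 4 * L ≤ ∑ u, f u := by
  obtain ⟨u, hu⟩ := h1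
  have a1 : 0 < ∑ u, f u := sum_pos' (fun u _ => h0 u) ⟨u, mem_univ _, hu⟩
  have a2 : (∑ u, f u) * L ≤ ∑ u, f u * ∑ r, f (out e u r) := by
    rw [sum_mul]
    refine sum_le_sum fun u _ => ?_
    rcases (h0 u).eq_or_lt with h | h
    · simp [← h]
    · exact mul_le_mul_of_nonneg_left (h2 u h) h.le
  rw [quad] at a2
  rw [sumU] at a1 a2 ⊢
  generalize ∑ s, (f (false, s, false) + f (false, s, true)) = A at *
  generalize ∑ s, (f (true, s, false) + f (true, s, true)) = B at *
  refine le_of_mul_le_mul_left ?_ a1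
  linarith [sq_nonneg (A - B)]

/-- differences along the matchings -/
def df {m : ℕ} (x : Fin h × Bool → Fin (m + 1)) (s j : Fin h) : ℤ :=
  (x (j, false) : ℕ) - (x (j + s, true) : ℕ)

theorem split {m Λ : ℕ} {ρ γ : ℝ} (hm : 1 ≤ m) (hρ : ∀ z : ℕ, 1 / 8 ≤ |z - ρ|) (ρ0 : 0 ≤ ρ)
    (ρ1 : ρ ≤ m) (γ0 : 0 ≤ γ) (hγ : 96 * m * γ * (192 * m ^ 2) ≤ Λ) (hΛ : Λ ≤ h)
    (he : ∀ x : Fin h × Bool → Fin (m + 1), 3 * h ^ 2 ≤ 192 * m ^ 2 * ∑ s, #{j | df x s j ≠ 0} →
      h < 192 * m ^ 2 * #{s | Λ < |sg (df x s) (e s)|})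
    (x : U h → ℕ) (hx : ∀ u, x u ≤ m) (n0 : ∃ u, 0 < x u) (n1 : ∃ u, x u < m)
    (hA : ∀ u, 0 < x u → ρ * h - γ ≤ ∑ r, (x (out e u r) : ℝ))
    (hB : ∀ u, x u < m → ∑ r, (x (out e u r) : ℝ) ≤ ρ * h + γ) : False := by
  have m1 : (1 : ℝ) ≤ m := by exact_mod_cast hm
  have h0 : (0 : ℝ) < h := by exact_mod_cast NeZero.pos h
  have hΛ' : (Λ : ℝ) ≤ h := by exact_mod_cast hΛ
  have hx' : ∀ u, (x u : ℝ) ≤ m := fun u => by exact_mod_cast hx u
  have cU : ∀ c : ℝ, ∑ _u : U h, c = 4 * h * c := fun c => by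
    rw [sum_const, card_univ, nsmul_eq_mul]
    simp only [Fintype.card_prod, Fintype.card_bool, Fintype.card_fin]
    push_cast
    ring
  have a1 := mass e (fun u => x u) (fun u => Nat.cast_nonneg _)
    (n0.imp fun u hu => by exact_mod_cast hu) _ fun u hu => hA u (by exact_mod_cast hu)
  have a2 := mass e (fun u => m - x u) (fun u => sub_nonneg.2 (hx' u))
    (n1.imp fun u hu => sub_pos.2 (by exact_mod_cast hu)) (m * h - (ρ * h + γ)) fun u hu => by
      have := hB u (by exact_mod_cast sub_pos.1 hu)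
      rw [sum_sub_distrib, sum_const, card_univ, Fintype.card_fin, nsmul_eq_mul]
      linarith
  rw [sum_sub_distrib, cU] at a2
  obtain ⟨ξ, hξ⟩ : ∃ ξ : U h → ℝ, ∀ u, ξ u = x u - ρ := ⟨_, fun _ => rfl⟩
  obtain ⟨S, hS⟩ : ∃ S : U h → ℝ, ∀ u, S u = ∑ r, ξ (out e u r) := ⟨_, fun _ => rfl⟩
  have hS' : ∀ u, S u = ∑ r, (x (out e u r) : ℝ) - ρ * h := fun u => by
    simp only [hS, hξ, sum_sub_distrib, sum_const, card_univ, Fintype.card_fin, nsmul_eq_mul]
    ring
  have a3 : ∀ u, |S u| ≤ 8 * (ξ u * S u) + 16 * (m * γ) := by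
    intro u
    have b1 : 1 / 8 ≤ |ξ u| := hξ u ▸ hρ _
    have b2 : -(m * γ) ≤ ξ u * S u := by
      have c0 : (0 : ℝ) ≤ x u := Nat.cast_nonneg _
      have c1 := hx' u
      have c2 := hξ u
      have c3 := hS' u
      rcases lt_trichotomy (ξ u) 0 with c | c | c
      · have := hB u (by exact_mod_cast (show (x u : ℝ) < m by linarith))
        linarith [mul_nonneg (neg_nonneg.2 c.le) (show 0 ≤ γ - S u by linarith),
          mul_nonneg γ0 (show 0 ≤ m + ξ u by linarith)]
      · rw [c, zero_mul, neg_nonpos]; positivity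
      · have := hA u (by exact_mod_cast (show (0 : ℝ) < x u by linarith))
        linarith [mul_nonneg c.le (show 0 ≤ γ + S u by linarith),
          mul_nonneg γ0 (show 0 ≤ m - ξ u by linarith)]
    have b3 : |S u| ≤ 8 * |ξ u * S u| := by
      rw [abs_mul]
      linarith [mul_le_mul_of_nonneg_right b1 (abs_nonneg (S u))]
    have b4 : 0 ≤ m * γ := by positivity
    rcases abs_cases (ξ u * S u) with c | c <;> linarith [c.1, c.2]
  have a4 := quad e ξ
  have a5 := sumU ξ
  obtain ⟨Q, hQ⟩ : ∃ Q, Q = ∑ s, (ξ (true, s, false) + ξ (true, s, true)) := ⟨_, rfl⟩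
  rw [← hQ] at a4 a5
  generalize ∑ s, (ξ (false, s, false) + ξ (false, s, true)) = P at a4 a5
  simp only [← hS] at a4
  have a6 : ∑ u, ξ u = ∑ u, (x u : ℝ) - 4 * h * ρ := by simp only [hξ, sum_sub_distrib, cU]
  have γ1 : γ ≤ h := by linarith [mul_nonneg γ0 (sub_nonneg.2 (one_le_pow₀ (n := 3) m1))]
  have a7 : P * Q ≤ 4 * γ ^ 2 := by
    have : (P + Q) ^ 2 ≤ (4 * γ) ^ 2 := sq_le_sq' (by linarith) (by linarith)
    linarith [sq_nonneg (P - Q)]
  have a8 : ∑ u, |S u| ≤ 96 * m * γ * h := by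
    have := sum_le_sum fun u (_ : u ∈ univ) => a3 u
    rw [sum_add_distrib, ← mul_sum, a4, cU] at this
    linarith [mul_nonneg γ0 (sub_nonneg.2 γ1), mul_nonneg (mul_nonneg γ0 h0.le) (sub_nonneg.2 m1)]
  have a9 : ∑ s, (|S (false, s, false)| + |S (false, s, true)|) ≤ 96 * m * γ * h := by
    refine le_trans ?_ a8
    rw [sumU]
    exact le_add_of_nonneg_right (by positivity)
  let y : Fin h × Bool → Fin (m + 1) := fun q => ⟨x (true, q), Nat.lt_succ_of_le (hx _)⟩
  have hd : ∀ s j, (df y s j : ℝ) = ξ (true, j, false) - ξ (true, j + s, true) := fun s j => by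
    simp [df, y, hξ]
  have b1 : ∀ s, S (false, s, false) + S (false, s, true) = Q := fun s => by
    rw [hQ, sum_add_distrib, ← shift (fun j => ξ (true, j, true)) s, hS, hS, ← sum_add_distrib,
      ← sum_add_distrib]
    refine sum_congr rfl fun j _ => ?_
    cases h : e s j <;> simp [out, h, add_comm]
  have b2 : ∀ s, (sg (df y s) (e s) : ℝ) = S (false, s, true) - S (false, s, false) := fun s => by
    rw [sg, hS, hS, ← sum_sub_distrib]
    push_cast
    refine sum_congr rfl fun j _ => ?_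
    cases h : e s j <;> simp [out, h, hd]
  have b3 : |Q| ≤ 96 * m * γ := by
    have := (sum_le_sum fun s (_ : s ∈ univ) => (b1 s ▸ abs_add_le _ _ : |Q| ≤ _)).trans a9
    rw [sum_const, card_univ, Fintype.card_fin, nsmul_eq_mul, mul_comm] at this
    exact le_of_mul_le_mul_right this h0
  have b4 : (h : ℝ) * (h / 32) - Q ^ 2 / 2 ≤ m ^ 2 * ∑ s, (#{j | df y s j ≠ 0} : ℝ) := by
    have c1 : ∀ u, 1 / 64 ≤ ξ u ^ 2 := fun u => by
      have : 1 / 8 ≤ |ξ u| := hξ u ▸ hρ _
      rw [← sq_abs]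
      linarith [pow_le_pow_left₀ (by norm_num) this 2]
    have c2 : ∀ s, (h : ℝ) / 32 - 2 * ∑ j, ξ (true, j, false) * ξ (true, j + s, true) ≤
        m ^ 2 * (#{j | df y s j ≠ 0} : ℝ) := fun s => by
      have : ∑ j, (1 / 32 - 2 * (ξ (true, j, false) * ξ (true, j + s, true))) ≤
          ∑ j, if df y s j ≠ 0 then (m : ℝ) ^ 2 else 0 := by
        refine sum_le_sum fun j _ => ?_
        have d1 := c1 (true, j, false)
        have d2 := c1 (true, j + s, true)
        have d3 : (df y s j : ℝ) ^ 2 ≤ if df y s j ≠ 0 then (m : ℝ) ^ 2 else 0 := by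
          split_ifs with h
          · have e1 := hx' (true, j, false)
            have e2 := hx' (true, j + s, true)
            have e3 : (0 : ℝ) ≤ x (true, j, false) := Nat.cast_nonneg _
            have e4 : (0 : ℝ) ≤ x (true, j + s, true) := Nat.cast_nonneg _
            rw [hd, hξ, hξ]
            exact sq_le_sq' (by linarith) (by linarith)
          · simp [not_not.1 h]
        rw [hd] at d3
        linarith
      rw [sum_sub_distrib, ← mul_sum, ← sum_filter, sum_const, sum_const, card_univ,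
        Fintype.card_fin, nsmul_eq_mul, nsmul_eq_mul] at this
      linarith
    have c3 := sum_le_sum fun s (_ : s ∈ univ) => c2 s
    rw [sum_sub_distrib, ← mul_sum, ← mul_sum, sum_comm, sum_const, card_univ, Fintype.card_fin,
      nsmul_eq_mul] at c3
    have c4 : ∀ j : Fin h, ∑ s, ξ (true, j + s, true) = ∑ s, ξ (true, s, true) := fun j =>
      Equiv.sum_comp (Equiv.addLeft j) fun s => ξ (true, s, true)
    simp only [← mul_sum, c4, ← sum_mul] at c3
    rw [hQ, sum_add_distrib]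
    linarith [sq_nonneg (∑ s, ξ (true, s, false) - ∑ s, ξ (true, s, true))]
  have m2 : (1 : ℝ) ≤ m ^ 2 := one_le_pow₀ m1
  have g0 : 0 ≤ 96 * m * γ := by positivity
  have b5 : Q ^ 2 ≤ (h / 192) ^ 2 := by
    have : 96 * m * γ ≤ h / 192 := by linarith [le_mul_of_one_le_right g0 m2]
    exact sq_le_sq' (by linarith [neg_abs_le Q]) (by linarith [le_abs_self Q])
  have b6 := he y (by
    have : (3 : ℝ) * h ^ 2 ≤ 192 * m ^ 2 * ∑ s, (#{j | df y s j ≠ 0} : ℝ) := by
      linarith [sq_nonneg (h : ℝ)]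
    exact_mod_cast this)
  have b7 : (#{s | Λ < |sg (df y s) (e s)|} : ℝ) * (Λ + 1) ≤ 96 * m * γ * h := by
    refine le_trans ?_ a9
    rw [← nsmul_eq_mul]
    refine (card_nsmul_le_sum _ (fun s => |S (false, s, false)| + |S (false, s, true)|) _
      fun s hs => ?_).trans (sum_le_sum_of_subset_of_nonneg (subset_univ _) fun _ _ _ => by positivity)
    have : ((Λ : ℝ) + 1) ≤ |(sg (df y s) (e s) : ℝ)| := by
      exact_mod_cast Int.add_one_le_of_lt (mem_filter.1 hs).2
    rw [b2, abs_sub_comm] at this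
    exact this.trans (abs_sub _ _)
  have b8 : (h : ℝ) < 192 * m ^ 2 * #{s | Λ < |sg (df y s) (e s)|} := by exact_mod_cast b6
  have b9 : (0 : ℝ) ≤ Λ := Nat.cast_nonneg _
  linarith [mul_le_mul_of_nonneg_left b7 (show (0 : ℝ) ≤ 192 * m ^ 2 by positivity),
    mul_lt_mul_of_pos_right b8 (show (0 : ℝ) < Λ + 1 by positivity),
    mul_le_mul_of_nonneg_right hγ h0.le]

end Pool.Agent.MP_d17781_co.Sq
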