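import Pool.Agent.MP_d17781_co.Graph
import Pool.Agent.MP_d17781_co.SqDi

namespace Pool.Agent.MP_d17781_co.Sq

open Finset Function

set_option linter.unusedSectionVars false

/-- layers of a group: nine cliques, three row separators, one column separator -/
abbrev Ly := (Fin 3 × Fin 3) ⊕ Option (Fin 3)

/-- positions in a layer -/
abbrev Wd (a : ℕ) := Fin 3 × Fin a

/-- vertices -/
abbrev V (h a : ℕ) := U h × Ly × Wd a

/-- the data of the construction -/
structure Dt (h a m : ℕ) where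
  e : Fin h → Fin h → Bool
  hm : m ≤ a
  φ : Fin 3 → Wd a → Fin h × Fin m
  inj : ∀ j, Injective (φ j)
  sur : ∀ p, ∃ j w, φ j w = p

namespace Dt

variable {h a m : ℕ} [NeZero h] (D : Dt h a m)

/-- a port -/
def port (v : U h) (π : Fin m) : V h a := (v, .inr none, 0, π.castLE D.hm)

/-- the port seen by a clique vertex -/
def tg (u : U h) (j : Fin 3) (w : Wd a) : V h a := D.port (out D.e u (D.φ j w).1) (D.φ j w).2

/-- one-sided adjacency -/
def R0 (x y : V h a) : Prop :=
  ∃ i j, x.2.1 = .inl (i, j) ∧ ((y.1 = x.1 ∧ (y.2.1 = .inl (i, j) ∨ y.2.1 = .inr (some i) ∨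
    (y.2.1 = .inr none ∧ y.2.2.1 = j))) ∨ y = D.tg x.1 j x.2.2)

/-- the graph -/
def gr : SimpleGraph (V h a) := SimpleGraph.fromRel D.R0

variable {D}

theorem adjY {x y : V h a} {i j : Fin 3} (hx : x.2.1 = .inl (i, j)) (h : D.gr.Adj x y) :
    (y.1 = x.1 ∧ (y.2.1 = .inl (i, j) ∨ y.2.1 = .inr (some i) ∨
      (y.2.1 = .inr none ∧ y.2.2.1 = j))) ∨ y = D.tg x.1 j x.2.2 := by
  rcases ((SimpleGraph.fromRel_adj _ _ _).1 h).2 with ⟨i', j', h1, h2⟩ | ⟨i', j', h1, h2⟩
  · obtain ⟨rfl, rfl⟩ := Prod.mk.inj (Sum.inl_injective (hx.symm.trans h1))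
    exact h2
  · rcases h2 with ⟨h2, h3 | h3 | h3⟩ | h2
    · exact Or.inl ⟨h2.symm, Or.inl (h1.trans (h3.symm.trans hx))⟩
    · cases hx.symm.trans h3
    · cases hx.symm.trans h3.1
    · rw [h2] at hx
      cases hx

theorem adjN {x y : V h a} {o : Option (Fin 3)} (hx : x.2.1 = .inr o) (h : D.gr.Adj x y) :
    ∃ i j, y.2.1 = .inl (i, j) ∧ ((x.1 = y.1 ∧ (o = some i ∨ x.2.2.1 = j)) ∨
      x = D.tg y.1 j y.2.2) := by
  rcases ((SimpleGraph.fromRel_adj _ _ _).1 h).2 with ⟨i', j', h1, h2⟩ | ⟨i', j', h1, h2⟩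
  · cases hx.symm.trans h1
  · refine ⟨i', j', h1, h2.imp_left fun h2 => ⟨h2.1, ?_⟩⟩
    rcases h2.2 with h3 | h3 | h3
    · cases hx.symm.trans h3
    · exact Or.inl (Sum.inr_injective (hx.symm.trans h3))
    · exact Or.inr h3.2

/-- a layer -/
def lay (a : ℕ) (u : U h) (l : Ly) : Finset (V h a) := {x | x.1 = u ∧ x.2.1 = l}

theorem mem_lay {u : U h} {l : Ly} {x : V h a} : x ∈ lay a u l ↔ x.1 = u ∧ x.2.1 = l := by
  simp [lay]

theorem lay_card (u : U h) (l : Ly) : (lay a u l).card ≤ 3 * a := by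
  have := card_le_card_of_injOn (s := lay a u l) (t := univ) (fun x => x.2.2)
    (fun _ _ => mem_univ _) fun x hx y hy e => Prod.ext
      ((mem_lay.1 hx).1.trans (mem_lay.1 hy).1.symm)
      (Prod.ext ((mem_lay.1 hx).2.trans (mem_lay.1 hy).2.symm) e)
  simpa using this

variable (D) in
/-- the ports of a group -/
def ports (u : U h) : Finset (V h a) := univ.image (D.port u)

theorem port_inj {u u' : U h} {π π' : Fin m} (h : D.port u π = D.port u' π') : u = u' ∧ π = π' := by
  simpa [port] using h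

theorem ports_card (u : U h) : (D.ports u).card = m := by
  rw [ports, card_image_of_injective _ fun _ _ e => (port_inj e).2]
  simp

theorem ports_spec {u : U h} {x : V h a} (h : x ∈ D.ports u) : x.1 = u ∧ x.2.1 = .inr none := by
  obtain ⟨π, -, rfl⟩ := mem_image.1 h
  exact ⟨rfl, rfl⟩

theorem tg_mem (u : U h) (j : Fin 3) (w : Wd a) : D.tg u j w ∈ D.ports (out D.e u (D.φ j w).1) :=
  mem_image_of_mem _ (mem_univ _)

variable (D) in
open Classical in
/-- foreign neighbours of a port -/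
noncomputable def inNb (z : V h a) : Finset (V h a) :=
  {y | ∃ i j, y.2.1 = .inl (i, j) ∧ z = D.tg y.1 j y.2.2}

theorem mem_inNb {z y : V h a} :
    y ∈ D.inNb z ↔ ∃ i j, y.2.1 = .inl (i, j) ∧ z = D.tg y.1 j y.2.2 := by
  simp only [inNb, mem_filter, mem_univ, true_and]

theorem inNb_card (z : V h a) : (D.inNb z).card ≤ 52 * h := by
  have := card_le_card_of_injOn (s := D.inNb z) (t := univ) (fun x => (x.1, x.2.1))
    (fun _ _ => mem_univ _) fun x hx y hy e => by
      obtain ⟨i, j, h1, h2⟩ := mem_inNb.1 hx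
      obtain ⟨i', j', h3, h4⟩ := mem_inNb.1 hy
      obtain ⟨e1, e2⟩ := Prod.mk.inj e
      obtain ⟨rfl, rfl⟩ := Prod.mk.inj (Sum.inl_injective (h1.symm.trans (e2.trans h3)))
      obtain ⟨e3, e4⟩ := port_inj (h2.symm.trans h4)
      rw [e1] at e3
      exact Prod.ext e1 (Prod.ext e2 (D.inj j (Prod.ext (out_inj _ _ e3) e4)))
  simp only [card_univ, Fintype.card_prod, Fintype.card_sum, Fintype.card_option, Fintype.card_bool,
    Fintype.card_fin] at this
  omega

variable {A : Finset (V h a)} {s : ℕ}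

theorem not_in_group (hA : KConn D.gr A s) (hs : 3 * a < s) (u : U h) (hu : ∀ z ∈ A, z.1 = u) :
    False := by
  have nt : ∀ x ∈ A, ∀ y ∈ A, ∀ j, y ≠ D.tg x.1 j x.2.2 := fun x hx y hy j e =>
    out_ne D.e x.1 _ ((ports_spec (e ▸ tg_mem x.1 j x.2.2)).1.symm.trans
      ((hu y hy).trans (hu x hx).symm))
  have lc : ∀ l, (A ∩ lay a u l).card < s := fun l =>
    ((card_le_card inter_subset_right).trans (lay_card u l)).trans_lt hs
  by_cases hex : ∃ z ∈ A, ∃ i j, z.2.1 = .inl (i, j)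
  · obtain ⟨z, hz, i, j, hl⟩ := hex
    have h1 := hA.cut (fun x => x.2.1 = .inr (some i) ∨ ∃ j, x.2.1 = .inl (i, j)) _ (lc (.inr none))
      hz (Or.inr ⟨j, hl⟩) (fun h => by cases hl.symm.trans (mem_lay.1 h).2) (by
        rintro x hx (h | ⟨j, h⟩) - y hy hxy
        · obtain ⟨i', j', h1, ⟨-, h2⟩ | h2⟩ := adjN h hxy
          · rcases ((SimpleGraph.fromRel_adj _ _ _).1 hxy).2 with ⟨i₂, j₂, h3, -⟩ | ⟨i₂, j₂, h3, h4⟩
            · cases h.symm.trans h3
            · rcases h4 with ⟨-, h4 | h4 | h4⟩ | h4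
              · cases h.symm.trans h4
              · cases h.symm.trans h4
                exact Or.inl (Or.inr ⟨j₂, h3⟩)
              · cases h.symm.trans h4.1
              · exact absurd h4 (nt y hy x hx _)
          · exact absurd h2 (nt y hy x hx _)
        · rcases adjY h hxy with ⟨-, h1 | h1 | h1⟩ | h1
          · exact Or.inl (Or.inr ⟨j, h1⟩)
          · exact Or.inl (Or.inl h1)
          · exact Or.inr (mem_lay.2 ⟨hu y hy, h1.1⟩)
          · exact absurd h1 (nt x hx y hy _))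
    have h2 := hA.cut (fun x => x.2.1 = .inl (i, j) ∨ x.2.1 = .inr none ∧ x.2.2.1 = j) _
      (lc (.inr (some i))) hz (Or.inl hl) (fun h => by cases hl.symm.trans (mem_lay.1 h).2) (by
        rintro x hx (h | h) - y hy hxy
        · rcases adjY h hxy with ⟨-, h1 | h1 | h1⟩ | h1
          · exact Or.inl (Or.inl h1)
          · exact Or.inr (mem_lay.2 ⟨hu y hy, h1⟩)
          · exact Or.inl (Or.inr h1)
          · exact absurd h1 (nt x hx y hy _)
        · obtain ⟨i', j', h3, ⟨-, h4 | h4⟩ | h4⟩ := adjN h.1 hxy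
          · cases h4
          · rcases h1 y hy with (h5 | ⟨j₂, h5⟩) | h5
            · cases h3.symm.trans h5
            · cases h3.symm.trans h5
              exact Or.inl (Or.inl (h3.trans (by rw [← h4, h.2])))
            · cases h3.symm.trans (mem_lay.1 h5).2
          · exact absurd h4 (nt y hy x hx _))
    have h3 : ∀ y ∈ A, ∀ p, y.2.1 = .inl p → y ∈ lay a u (.inl (i, j)) := fun y hy p hp => by
      rcases h2 y hy with (h | h) | h
      · exact mem_lay.2 ⟨hu y hy, h⟩
      · cases hp.symm.trans h.1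
      · cases hp.symm.trans (mem_lay.1 h).2
    by_cases h4 : ∃ v ∈ A, ∃ o, v.2.1 = .inr o
    · obtain ⟨v, hv, o, ho⟩ := h4
      refine hA.deg _ ((lay_card u (.inl (i, j))).trans_lt hs) hv fun y hy hvy => ?_
      obtain ⟨i', j', h5, -⟩ := adjN ho hvy
      exact h3 y hy _ h5
    · refine hA.deg _ ((lay_card u (.inl (i, j))).trans_lt hs) hz fun y hy _ => ?_
      rcases h5 : y.2.1 with p | o
      · exact h3 y hy _ h5
      · exact absurd ⟨y, hy, o, h5⟩ h4
  · obtain ⟨v, hv⟩ : A.Nonempty := card_pos.1 (Nat.zero_lt_of_lt hA.1)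
    refine hA.deg ∅ (Nat.zero_lt_of_lt hs) hv fun y hy hvy => absurd ?_ hex
    rcases h5 : v.2.1 with p | o
    · exact ⟨v, hv, p.1, p.2, h5⟩
    · obtain ⟨i', j', h6, -⟩ := adjN h5 hvy
      exact ⟨y, hy, i', j', h6⟩

theorem inner_needs (hA : KConn D.gr A s) (hs : 3 * a < s) (hs' : 52 * h < s) {w : V h a}
    (hw : w ∈ A) (hp : w ∉ D.ports w.1) :
    s ≤ m + ∑ r, (A ∩ D.ports (out D.e w.1 r)).card := by
  by_contra hlt
  let Y := D.ports w.1 ∪ univ.biUnion fun r => D.ports (out D.e w.1 r)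
  have hY : (A ∩ Y).card < s := by
    rw [inter_union_distrib_left, inter_biUnion]
    refine lt_of_le_of_lt ((card_union_le _ _).trans (Nat.add_le_add ?_ card_biUnion_le))
      (not_le.1 hlt)
    exact (card_le_card inter_subset_right).trans_eq (ports_card _)
  have hY' : ∀ y ∈ Y, y.2.1 = .inr none := fun y hy => by
    rcases mem_union.1 hy with h | h
    · exact (ports_spec h).2
    · obtain ⟨r, -, h⟩ := mem_biUnion.1 h
      exact (ports_spec h).2
  have h1 := hA.cut (fun x => x.1 = w.1 ∧ x ∉ D.ports w.1) Y hY hw ⟨rfl, hp⟩ (fun h => by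
      rcases mem_union.1 h with h | h
      · exact hp h
      · obtain ⟨r, -, h⟩ := mem_biUnion.1 h
        exact out_ne _ _ _ (ports_spec h).1.symm) (by
      rintro x - ⟨h1, h2⟩ - y - hxy
      rcases h3 : x.2.1 with p | o
      · rcases adjY (i := p.1) (j := p.2) h3 hxy with h4 | h4
        · by_cases h5 : y ∈ D.ports w.1
          · exact Or.inr (mem_union_left _ h5)
          · exact Or.inl ⟨h4.1.trans h1, h5⟩
        · exact Or.inr (mem_union_right _ (mem_biUnion.2 ⟨_, mem_univ _, by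
            rw [h4, h1]; exact tg_mem _ _ _⟩))
      · obtain ⟨i, j, h4, h5 | h5⟩ := adjN h3 hxy
        · exact Or.inl ⟨h5.1.symm.trans h1, fun h => by cases h4.symm.trans (ports_spec h).2⟩
        · have := h5 ▸ tg_mem (D := D) y.1 j y.2.2
          rw [← (ports_spec this).1, h1] at this
          exact absurd this h2)
  refine not_in_group hA hs w.1 fun z hz => by_contra fun hzu => ?_
  refine hA.deg _ ((inNb_card (D := D) z).trans_lt hs') hz fun y hy hzy => ?_
  obtain ⟨i, j, h4, h5 | h5⟩ := adjN (hY' z ((h1 z hz).resolve_left fun h => hzu h.1)) hzy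
  · rcases h1 y hy with h | h
    · exact absurd (h5.1.trans h.1) hzu
    · cases h4.symm.trans (hY' y h)
  · exact mem_inNb.2 ⟨i, j, h4, h5⟩

theorem any_needs (hA : KConn D.gr A s) (hs : 3 * a < s) (hs' : 52 * h < s) {w : V h a}
    (hw : w ∈ A) : s ≤ m + ∑ r, (A ∩ D.ports (out D.e w.1 r)).card := by
  by_cases hp : w ∈ D.ports w.1
  · by_contra hlt
    refine hA.deg _ ((inNb_card (D := D) w).trans_lt hs') hw fun y hy hwy => ?_
    obtain ⟨i, j, h4, h5 | h5⟩ := adjN (ports_spec hp).2 hwy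
    · exact absurd (h5.1 ▸ inner_needs hA hs hs' hy fun h => by
        cases h4.symm.trans (ports_spec h).2) hlt
    · exact mem_inNb.2 ⟨i, j, h4, h5⟩
  · exact inner_needs hA hs hs' hw hp

theorem port_needs (hA : KConn D.gr A s) (hs : 3 * a < s) (hs' : 52 * h < s) {u : U h}
    (hu : 0 < (A ∩ D.ports u).card) : s ≤ m + ∑ r, (A ∩ D.ports (out D.e u r)).card := by
  obtain ⟨w, hw⟩ := card_pos.1 hu
  exact (ports_spec (mem_inter.1 hw).2).1 ▸ any_needs hA hs hs' (mem_inter.1 hw).1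

theorem has_port (hA : KConn D.gr A s) (hs : 3 * a < s) (hs' : 52 * h < s) :
    ∃ u, 0 < (A ∩ D.ports u).card := by
  obtain ⟨w, hw⟩ : A.Nonempty := card_pos.1 (Nat.zero_lt_of_lt hA.1)
  by_contra! h0
  have := any_needs hA hs hs' hw
  rw [sum_eq_zero fun r _ => Nat.le_zero.1 (h0 _)] at this
  have := D.hm
  omega

end Dt

end Pool.Agent.MP_d17781_co.Sq
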