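import Mathlib

namespace Pool.Agent.MP_d17781_co.Sq

open Finset

theorem cb (n : ℕ) : (2 * n + 1) * n.centralBinom ^ 2 ≤ 16 ^ n := by
  induction n with
  | zero => simp
  | succ n ih =>
    have h := Nat.succ_mul_centralBinom_succ n
    refine Nat.le_of_mul_le_mul_left (c := (n + 1) ^ 2) ?_ (by positivity)
    calc _ = (2 * n + 3) * ((n + 1) * (n + 1).centralBinom) ^ 2 := by ring
      _ = (2 * n + 3) * (4 * (2 * n + 1)) * ((2 * n + 1) * n.centralBinom ^ 2) := by rw [h]; ring
      _ ≤ (16 * (n + 1) ^ 2) * 16 ^ n := Nat.mul_le_mul (by nlinarith) ih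
      _ = _ := by ring

theorem mid (N : ℕ) : N * N.choose (N / 2) ^ 2 ≤ (2 ^ N) ^ 2 := by
  have h := cb (N / 2)
  rcases Nat.even_or_odd' N with ⟨n, rfl | rfl⟩
  · rw [Nat.mul_div_cancel_left _ (by norm_num)] at h ⊢
    calc _ ≤ (2 * n + 1) * n.centralBinom ^ 2 := Nat.mul_le_mul_right _ (Nat.le_succ _)
      _ ≤ _ := h
      _ = _ := by rw [← pow_mul, show 16 = 2 ^ 4 from rfl, ← pow_mul]; congr 1; ring
  · rw [show (2 * n + 1) / 2 = n by omega] at h ⊢
    have h1 : (2 * n + 1).choose n ≤ 2 * n.centralBinom := by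
      rw [← Nat.choose_symm_half, Nat.choose_succ_succ', two_mul n.centralBinom]
      exact Nat.add_le_add (Nat.choose_le_centralBinom _ _) (Nat.choose_le_centralBinom _ _)
    calc _ ≤ (2 * n + 1) * (2 * n.centralBinom) ^ 2 := by gcongr
      _ = 4 * ((2 * n + 1) * n.centralBinom ^ 2) := by ring
      _ ≤ 4 * 16 ^ n := Nat.mul_le_mul_left _ h
      _ = _ := by
        rw [← pow_mul, show 16 = 2 ^ 4 from rfl, ← pow_mul, show 4 * 2 ^ (4 * n) = 2 ^ (4 * n + 2) by ring]
        congr 1
        ring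

variable {ι : Type} [Fintype ι] [DecidableEq ι]

/-- a signed sum -/
def sg (c : ι → ℤ) (e : ι → Bool) : ℤ := ∑ j, if e j then c j else -c j

theorem lo_val (c : ι → ℤ) (τ : ℤ) : #{e : ι → Bool | sg c e = τ} ≤
    (#{j | c j ≠ 0}).choose (#{j | c j ≠ 0} / 2) * 2 ^ #{j | ¬ c j ≠ 0} := by
  rw [← card_powerset]
  refine card_le_mul_card_image_of_maps_to (f := fun e => univ.filter fun j => ¬ c j ≠ 0 ∧ e j)
    (fun e _ => mem_powerset.2 fun j hj => by simpa using (mem_filter.1 hj).2.1) _ fun b _ => ?_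
  let T : (ι → Bool) → Finset {j // c j ≠ 0} := fun e => univ.filter fun j => e j = decide (0 < c j)
  rw [← card_image_of_injOn (f := T), ← Fintype.card_subtype]
  · refine IsAntichain.sperner ?_
    rintro _ h _ h' hne hs
    obtain ⟨e, he, rfl⟩ := mem_image.1 h
    obtain ⟨e', he', rfl⟩ := mem_image.1 h'
    have hs' : ∀ j, c j ≠ 0 → e j = decide (0 < c j) → e' j = decide (0 < c j) := fun j hj h =>
      (mem_filter.1 (hs (mem_filter.2 ⟨mem_univ (⟨j, hj⟩ : {j // c j ≠ 0}), h⟩))).2
    have := (sum_eq_sum_iff_of_le (s := univ) (f := fun j => if e j then c j else -c j)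
      (g := fun j => if e' j then c j else -c j) fun j _ => by
        have := hs' j
        by_cases h : 0 < c j <;> cases h1 : e j <;> cases h2 : e' j <;> simp_all <;> omega).1
      ((mem_filter.1 (mem_filter.1 he).1).2.trans (mem_filter.1 (mem_filter.1 he').1).2.symm)
    refine hne (filter_congr fun j _ => ?_)
    have h3 := this j (mem_univ _)
    have h4 := j.2
    revert h3
    cases e j <;> cases e' j <;> simp <;> omega
  · intro e he e' he' h
    funext j
    by_cases hj : c j ≠ 0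
    · have := Finset.ext_iff.1 h ⟨j, hj⟩
      simp only [T, mem_filter, mem_univ, true_and] at this
      revert this
      cases e j <;> cases e' j <;> cases decide (0 < c j) <;> simp
    · have := Finset.ext_iff.1 ((mem_filter.1 he).2.trans (mem_filter.1 he').2.symm) j
      simp only [mem_filter, mem_univ, true_and, hj, not_false_iff] at this
      exact Bool.eq_iff_iff.2 this

theorem small (c : ι → ℤ) (Λ R : ℕ) (h : ((2 * Λ + 1) * R) ^ 2 ≤ #{j | c j ≠ 0}) :
    #{e : ι → Bool | |sg c e| ≤ Λ} * R ≤ 2 ^ Fintype.card ι := by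
  have h1 := card_le_mul_card_image_of_maps_to (s := {e : ι → Bool | |sg c e| ≤ Λ})
    (t := Icc (-(Λ : ℤ)) Λ) (f := sg c) (fun e he => mem_Icc.2 (abs_le.1 (mem_filter.1 he).2)) _
    fun τ _ => (card_le_card fun e he => mem_filter.2 ⟨mem_univ _, (mem_filter.1 he).2⟩).trans
      (lo_val c τ)
  have h2 : (Icc (-(Λ : ℤ)) Λ).card = 2 * Λ + 1 := by rw [Int.card_Icc]; omega
  have h3 := card_filter_add_card_filter_not (s := univ) fun j => c j ≠ 0
  have h4 := mid #{j | c j ≠ 0}
  rw [h2] at h1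
  rw [← card_univ (α := ι), ← h3, pow_add]
  generalize #{j | c j ≠ 0} = N at *
  have h5 : (2 * Λ + 1) * R * N.choose (N / 2) ≤ 2 ^ N := by
    refine (Nat.pow_le_pow_iff_left two_ne_zero).1 (le_trans ?_ h4)
    rw [mul_pow]
    exact Nat.mul_le_mul_right _ h
  calc _ ≤ _ := Nat.mul_le_mul_right R h1
    _ = (2 * Λ + 1) * R * N.choose (N / 2) * _ := by ring
    _ ≤ _ := Nat.mul_le_mul_right _ h5

theorem good {X : Type} [Fintype X] (c : X → ι → ι → ℤ) (h M Λ E : ℕ) (hh : Fintype.card ι = h)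
    (h0 : 0 < h) (hΛ : M * ((2 * Λ + 1) * E ^ M) ^ 2 ≤ h) (hE : Fintype.card X * 2 ^ h < E ^ h) :
    ∃ e : ι → ι → Bool, ∀ x, 3 * h ^ 2 ≤ M * ∑ s, #{j | c x s j ≠ 0} →
      h < M * #{s | Λ < |sg (c x s) (e s)|} := by
  classical
  by_contra! hc
  choose bad h1 h2 using hc
  have E0 : 0 < E := Nat.pos_of_ne_zero (by rintro rfl; simp [h0.ne'] at hE)
  have key : ∀ x, #{e | bad e = x} * E ^ h ≤ (2 * 2 ^ h) ^ h := by
    intro x
    let G : Finset ι := {s | h ≤ M * #{j | c x s j ≠ 0}}
    let w : ι → (ι → Bool) → ℕ := fun s r => if s ∈ G ∧ |sg (c x s) r| ≤ Λ then E ^ M else 1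
    have a1 : ∀ s, ∑ r, w s r ≤ 2 * 2 ^ h := by
      intro s
      by_cases hs : s ∈ G
      · have M0 : 0 < M := Nat.pos_of_mul_pos_right (h0.trans_le (mem_filter.1 hs).2)
        have := small (c x s) Λ (E ^ M)
          (Nat.le_of_mul_le_mul_left (hΛ.trans (mem_filter.1 hs).2) M0)
        have h3 : #{r : ι → Bool | ¬ |sg (c x s) r| ≤ Λ} ≤ 2 ^ h := by
          simpa [hh] using card_le_univ (α := ι → Bool) _
        simp only [w, hs, true_and, sum_ite, sum_const, smul_eq_mul, mul_one]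
        rw [hh] at this
        omega
      · simp [w, hs, hh]
    calc _ ≤ ∑ e ∈ {e | bad e = x}, ∏ s, w s (e s) := by
          refine card_nsmul_le_sum _ _ _ fun e he => ?_
          obtain rfl := (mem_filter.1 he).2
          have b1 : M * ∑ s, #{j | c (bad e) s j ≠ 0} ≤ G.card * (M * h) + h * h := by
            rw [mul_sum, ← sum_filter_add_sum_filter_not univ (· ∈ G), filter_univ_mem]
            refine Nat.add_le_add (sum_le_card_nsmul _ _ _ fun s _ =>
              Nat.mul_le_mul_left _ (hh ▸ card_le_univ _)) ?_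
            refine (sum_le_card_nsmul _ _ h fun s hs => ?_).trans
              (Nat.mul_le_mul_right _ (hh ▸ card_le_univ _))
            simpa [G] using le_of_lt (by simpa [G] using hs)
          have b2 : G.card ≤ #{s | s ∈ G ∧ |sg (c (bad e) s) (e s)| ≤ Λ} +
              #{s | Λ < |sg (c (bad e) s) (e s)|} := by
            refine (card_le_card fun s hs => ?_).trans (card_union_le _ _)
            rcases le_or_gt |sg (c (bad e) s) (e s)| Λ with h3 | h3 <;> simp [hs, h3]
          have b3 : 2 * h ≤ M * G.card :=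
            Nat.le_of_mul_le_mul_right (by nlinarith [h1 e]) h0
          have b4 := Nat.mul_le_mul_left M b2
          have b5 := h2 e
          rw [prod_ite, prod_const, prod_const, one_pow, mul_one, ← pow_mul]
          refine Nat.pow_le_pow_right E0 ?_
          rw [mul_add] at b4
          omega
      _ ≤ ∑ e : ι → ι → Bool, ∏ s, w s (e s) := sum_le_sum_of_subset (subset_univ _)
      _ = ∏ s, ∑ r, w s r := by rw [prod_univ_sum, Fintype.piFinset_univ]
      _ ≤ _ := (prod_le_pow_card _ _ _ fun s _ => a1 s).trans_eq (by rw [card_univ, hh])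
  have a2 : (2 ^ h) ^ h = ∑ x, #{e | bad e = x} := by
    rw [← card_eq_sum_card_fiberwise fun e _ => mem_univ (bad e)]
    simp [hh]
  have a3 : (2 ^ h) ^ h * E ^ h ≤ Fintype.card X * (2 * 2 ^ h) ^ h := by
    rw [a2, sum_mul]
    exact sum_le_card_nsmul _ _ _ fun x _ => key x
  rw [mul_pow, ← mul_assoc, mul_comm] at a3
  exact absurd (Nat.le_of_mul_le_mul_right a3 (by positivity)) (not_le.2 hE)

end Pool.Agent.MP_d17781_co.Sq
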