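import Pool.Agent.MP_d17781_co.SqC

namespace Pool.Agent.MP_d17781_co.Sq

open Finset Function

theorem exphi {α β : Type} [Fintype α] [Fintype β] (h0 : 0 < Fintype.card α)
    (h1 : Fintype.card α ≤ Fintype.card β) (h2 : Fintype.card β ≤ 3 * Fintype.card α) :
    ∃ φ : Fin 3 → α → β, (∀ j, Injective (φ j)) ∧ ∀ p, ∃ j w, φ j w = p := by
  let e := Fintype.equivFin α
  let f := Fintype.equivFin β
  refine ⟨fun j w => f.symm ⟨(Fintype.card α * j + e w) % Fintype.card β, Nat.mod_lt _ (by omega)⟩,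
    fun j w w' h => e.injective (Fin.ext ?_), fun p => ⟨⟨f p / Fintype.card α, ?_⟩,
      e.symm ⟨f p % Fintype.card α, Nat.mod_lt _ h0⟩, ?_⟩⟩
  · exact (Nat.ModEq.add_left_cancel' _ (Fin.mk.inj (f.symm.injective h))).eq_of_lt_of_lt
      ((e w).2.trans_le h1) ((e w').2.trans_le h1)
  · exact (Nat.div_lt_iff_lt_mul h0).2 ((f p).2.trans_le h2)
  · simp [Nat.div_add_mod, Nat.mod_eq_of_lt (f p).2]

theorem par {s t g m : ℕ} (hm : m = 130 ∨ m = 131) (h1 : s ≤ t) (h2 : 10 * t ≤ 13 * s)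
    (hg : 30000 * (g + 1) ≤ s) : ∃ h a, 3 * a < s ∧ 52 * h < s ∧ m ≤ a ∧ 3 * a ≤ m * h ∧
      m * h ≤ 7 * a ∧ s + t + g + 6 * m ≤ m * h ∧ m * h ≤ s + t + g + 7 * m ∧ s ≤ 131 * h := by
  refine ⟨(s + t + g) / m + 7, (s - 1) / 3, ?_⟩
  rcases hm with rfl | rfl <;> omega

theorem core {m : ℕ} (hm : m = 130 ∨ m = 131) : ∃ K : ℕ, 0 < K ∧ ∀ s t g : ℕ, s ≤ t →
    10 * t ≤ 13 * s → K * (g + 1) ^ 2 ≤ s → (∀ z : ℕ, 1 / 8 ≤ |z - (m : ℝ) * (s / (s + t))|) →
    ∃ (W : Type) (_ : Fintype W) (_ : DecidableEq W) (G : SimpleGraph W),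
      s + t + g < Fintype.card W ∧ (∀ X : Finset W, X.card < s + t + g →
        (G.induce ((univ \ X : Finset W) : Set W)).Connected) ∧
      ∀ A B : Finset W, Disjoint A B → A ∪ B = univ → ¬ (KConn G A s ∧ KConn G B t) := by
  have m1 : 1 ≤ m := by omega
  obtain ⟨R, hR⟩ : ∃ R, R = (4 * (m + 1) ^ 2) ^ (192 * m ^ 2) := ⟨_, rfl⟩
  have R0 : 0 < R := by rw [hR]; positivity
  obtain ⟨L, hL⟩ : ∃ L, L = 96 * m * (8 * m) * (192 * m ^ 2) := ⟨_, rfl⟩
  refine ⟨131 * (192 * m ^ 2 * ((2 * L + 1) * R) ^ 2) + 30000, by positivity,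
    fun s t g h1 h2 h3 hρ => ?_⟩
  rw [add_mul] at h3
  obtain ⟨h, a, p1, p2, p3, p4, p5, p6, p7, p8⟩ := par (g := g) hm h1 h2 (le_trans
    (Nat.mul_le_mul_left _ (Nat.le_self_pow two_ne_zero _)) ((Nat.le_add_left _ _).trans h3))
  have h0 : 0 < h := by omega
  have : NeZero h := ⟨h0.ne'⟩
  have hΛ : 192 * m ^ 2 * ((2 * (L * (g + 1)) + 1) * R) ^ 2 ≤ h := by
    refine Nat.le_of_mul_le_mul_left (le_trans ?_ (((Nat.le_add_right _ _).trans h3).trans p8))
      (by norm_num)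
    rw [mul_assoc 131, mul_assoc _ _ ((g + 1) ^ 2), ← mul_pow _ (g + 1)]
    refine Nat.mul_le_mul_left _ (Nat.mul_le_mul_left _ (Nat.pow_le_pow_left ?_ _))
    rw [mul_right_comm, add_mul _ _ (g + 1), mul_assoc 2]
    exact Nat.mul_le_mul_right _ (Nat.add_le_add_left (by omega) _)
  obtain ⟨e, he⟩ := good (df (h := h) (m := m)) h (192 * m ^ 2) (L * (g + 1)) (4 * (m + 1) ^ 2)
    (Fintype.card_fin h) h0 (hR ▸ hΛ) (by
      rw [Fintype.card_fun, Fintype.card_fin, Fintype.card_prod, Fintype.card_fin,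
        Fintype.card_bool, mul_comm h, pow_mul, mul_pow, mul_comm]
      exact Nat.mul_lt_mul_of_pos_right (Nat.pow_lt_pow_left (by norm_num) h0.ne') (by positivity))
  obtain ⟨φ, φ1, φ2⟩ := exphi (α := Wd a) (β := Fin h × Fin m) (by simp; omega)
    (by simpa [mul_comm h] using p4) (by simp [mul_comm h]; omega)
  let D : Dt h a m := ⟨e, p3, φ, φ1, φ2⟩
  refine ⟨V h a, inferInstance, inferInstance, D.gr, ?_, fun X hX => Dt.connected p5 (by omega),
    fun A B hd hu ⟨hA, hB⟩ => ?_⟩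
  · have : Fintype.card (V h a) = 156 * (h * a) := by simp; ring
    have := Nat.le_mul_of_pos_left a h0
    omega
  have hs : ∀ u, (A ∩ D.ports u).card + (B ∩ D.ports u).card = m := fun u => by
    rw [← card_union_of_disjoint (hd.mono inter_subset_left inter_subset_left),
      ← union_inter_distrib_right, hu, univ_inter, Dt.ports_card]
  have s0 : (0 : ℝ) < s := by exact_mod_cast (Nat.zero_lt_of_lt p1)
  have t0 : (0 : ℝ) ≤ t := Nat.cast_nonneg _
  obtain ⟨r, hr⟩ : ∃ r : ℝ, r = s / (s + t) := ⟨_, rfl⟩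
  have r0 : 0 ≤ r := by rw [hr]; positivity
  have r1 : r * (s + t) = s := by rw [hr]; field_simp
  have r2 : r ≤ 1 := by rw [hr, div_le_one (by positivity)]; linarith
  rw [← hr] at hρ
  have q1 : (s : ℝ) + t ≤ m * h := by exact_mod_cast (show s + t ≤ m * h by omega)
  have q2 : (m : ℝ) * h ≤ s + t + g + 7 * m := by exact_mod_cast p7
  have m0 : (1 : ℝ) ≤ m := by exact_mod_cast m1
  refine split e (γ := m * h - (s + t) + m) m1 hρ (by positivity)
    (mul_le_of_le_one_right (by positivity) r2) (by linarith) ?_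
    ?_ he (fun u => (A ∩ D.ports u).card) (fun u => by have := hs u; omega)
    (Dt.has_port hA p1 p2) ((Dt.has_port hB (by omega) (by omega)).imp fun u hu => by
      have := hs u; omega) (fun u hu => ?_) fun u hu => ?_
  · rw [hL]
    push_cast
    rw [mul_right_comm _ _ ((g : ℝ) + 1), mul_assoc _ (8 * (m : ℝ))]
    gcongr
    linarith [le_mul_of_one_le_left (Nat.cast_nonneg (α := ℝ) g) m0,
      mul_nonneg (zero_le_one.trans m0) (Nat.cast_nonneg (α := ℝ) g)]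
  · refine le_trans ?_ hΛ
    calc L * (g + 1) ≤ (2 * (L * (g + 1)) + 1) * R :=
          le_trans (by omega) (Nat.le_mul_of_pos_right _ R0)
      _ ≤ _ := Nat.le_self_pow two_ne_zero _
      _ ≤ _ := Nat.le_mul_of_pos_left _ (by positivity)
  · have : (s : ℝ) ≤ m + ∑ r, ((A ∩ D.ports (out e u r)).card : ℝ) := by
      exact_mod_cast Dt.port_needs hA p1 p2 hu
    linarith [mul_le_mul_of_nonneg_left q1 (sub_nonneg.2 r2)]
  · have b1 := Dt.port_needs hB (u := u) (by omega) (by omega) (by have := hs u; omega)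
    have b2 := sum_congr rfl fun r (_ : r ∈ univ) => hs (out e u r)
    rw [sum_add_distrib, sum_const, card_univ, Fintype.card_fin, smul_eq_mul, mul_comm] at b2
    have : (t : ℝ) + ∑ r, ((A ∩ D.ports (out e u r)).card : ℝ) ≤ m + m * h := by
      exact_mod_cast (Nat.add_le_add_right b1 _).trans_eq (by rw [← b2]; ring)
    linarith [mul_le_mul_of_nonneg_left q1 r0]

theorem pick {r : ℝ} (h1 : 1 / 4 ≤ r) (h2 : r ≤ 3 / 4) :
    (∀ z : ℕ, 1 / 8 ≤ |z - ((130 : ℕ) : ℝ) * r|) ∨ ∀ z : ℕ, 1 / 8 ≤ |z - ((131 : ℕ) : ℝ) * r| := by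
  by_contra! hc
  obtain ⟨⟨z, hz⟩, z', hz'⟩ := hc
  obtain ⟨a1, a2⟩ := abs_lt.1 hz
  obtain ⟨b1, b2⟩ := abs_lt.1 hz'
  push_cast at a1 a2 b1 b2
  have c1 : z < z' := by exact_mod_cast (show (z : ℝ) < z' by linarith)
  have c2 : z' < z + 1 := by exact_mod_cast (show (z' : ℝ) < z + 1 by linarith)
  omega

theorem main : ∃ K : ℕ, 0 < K ∧ ∀ s t g : ℕ, s ≤ t → 10 * t ≤ 13 * s → K * (g + 1) ^ 2 ≤ s →
    ∃ (W : Type) (_ : Fintype W) (_ : DecidableEq W) (G : SimpleGraph W),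
      s + t + g < Fintype.card W ∧ (∀ X : Finset W, X.card < s + t + g →
        (G.induce ((univ \ X : Finset W) : Set W)).Connected) ∧
      ∀ A B : Finset W, Disjoint A B → A ∪ B = univ → ¬ (KConn G A s ∧ KConn G B t) := by
  obtain ⟨K, hK, H⟩ := core (m := 130) (Or.inl rfl)
  obtain ⟨K', -, H'⟩ := core (m := 131) (Or.inr rfl)
  refine ⟨K + K', by omega, fun s t g h1 h2 h3 => ?_⟩
  rw [add_mul] at h3
  have s0 : (0 : ℝ) < s := by
    exact_mod_cast lt_of_lt_of_le (by positivity) ((Nat.le_add_right _ _).trans h3)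
  have h1' : (s : ℝ) ≤ t := by exact_mod_cast h1
  have h2' : (10 : ℝ) * t ≤ 13 * s := by exact_mod_cast h2
  rcases pick (r := s / (s + t)) (by rw [le_div_iff₀ (by linarith)]; linarith)
    (by rw [div_le_iff₀ (by linarith)]; linarith) with h | h
  · exact H s t g h1 h2 ((Nat.le_add_right _ _).trans h3) h
  · exact H' s t g h1 h2 ((Nat.le_add_left _ _).trans h3) h

end Pool.Agent.MP_d17781_co.Sq
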